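import Pool.Agent.MP_12a176_ag.Defs

/- Algebra of the Chern polynomials. -/

set_option autoImplicit false

namespace Pool.Agent.MP_12a176_ag

open Complex Finset Matrix MvPolynomial
open scoped ComplexOrder

noncomputable section

variable {m : ℕ} {R : Type} [CommRing R] [Algebra ℂ R]

/-- Evaluation of a polynomial at the entries of a matrix. -/
abbrev ev (Θ : Matrix (Fin m) (Fin m) R) : MvPolynomial (Fin m × Fin m) ℂ →ₐ[ℂ] R :=
  aeval fun a => Θ a.1 a.2

theorem chern_minors (k : ℕ) : chernPoly m k = ∑ s ∈ univ.powersetCard k,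
    (((I / (2 * Real.pi)) • mvPolynomialX (Fin m) (Fin m) ℂ).submatrix
      (Subtype.val : s → Fin m) (Subtype.val : s → Fin m)).det := by
  rw [← coeff_det_one_add_X_smul_eq_sum_minors, chernPoly, charpolyRev, neg_smul,
    Matrix.map_neg _ (map_neg _), smul_neg, sub_neg_eq_add]

theorem ev_chern (Θ : Matrix (Fin m) (Fin m) R) (k : ℕ) : ev Θ (chernPoly m k) =
    (det (1 + (Polynomial.X : Polynomial R) • ((I / (2 * Real.pi)) • Θ).map Polynomial.C)).coeff k := by
  rw [chern_minors, coeff_det_one_add_X_smul_eq_sum_minors, map_sum]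
  refine sum_congr rfl fun s _ => ?_
  rw [AlgHom.map_det]
  congr 1
  ext a b
  simp

theorem chern_homog (k : ℕ) : (chernPoly m k).IsHomogeneous k := by
  rw [chern_minors]
  refine IsHomogeneous.sum _ _ _ fun s hs => ?_
  rw [det_apply']
  refine IsHomogeneous.sum _ _ _ fun π _ => ?_
  have := IsHomogeneous.prod univ (fun a : s => ((I / (2 * Real.pi)) •
    (X ((π a).1, a.1) : MvPolynomial (Fin m × Fin m) ℂ))) (fun _ => 1) fun a _ => by
      rw [← C_mul']; exact (isHomogeneous_X _ _).C_mul _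
  rw [sum_const, card_univ, Fintype.card_coe, (mem_powersetCard.1 hs).2, smul_eq_mul,
    mul_one] at this
  rw [← map_intCast (C : ℂ →+* MvPolynomial (Fin m × Fin m) ℂ)]
  exact this.C_mul _

/-- Invariance under conjugation. -/
def Inv (P : MvPolynomial (Fin m × Fin m) ℂ) : Prop :=
  ∀ g g' Θ : Matrix (Fin m) (Fin m) ℂ, g * g' = 1 → ev (g' * Θ * g) P = ev Θ P

theorem ev_ev {S : Type} [CommRing S] [Algebra ℂ S] (φ : R →ₐ[ℂ] S) (Θ : Matrix (Fin m) (Fin m) R)
    (P : MvPolynomial (Fin m × Fin m) ℂ) : φ (ev Θ P) = ev (Θ.map φ) P := by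
  rw [← AlgHom.comp_apply, comp_aeval]; rfl

theorem Inv.conj {P : MvPolynomial (Fin m × Fin m) ℂ} (h : Inv P)
    {g g' : Matrix (Fin m) (Fin m) ℂ} (hg : g * g' = 1) (Θ : Matrix (Fin m) (Fin m) R) :
    ev (g'.map (algebraMap ℂ R) * Θ * g.map (algebraMap ℂ R)) P = ev Θ P := by
  have key : ∀ {S : Type} [CommRing S] [Algebra ℂ S] (Θ : Matrix (Fin m) (Fin m) S),
      ev Θ (ev (g'.map C * mvPolynomialX _ _ ℂ * g.map C) P) =
        ev (g'.map (algebraMap ℂ S) * Θ * g.map (algebraMap ℂ S)) P := by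
    intro S _ _ Θ
    rw [ev_ev]
    congr 2
    ext a
    simp [Matrix.mul_apply]
  have : ev (g'.map C * mvPolynomialX _ _ ℂ * g.map C) P = P := by
    refine MvPolynomial.funext fun x => ?_
    have := key (Matrix.of fun a b => x (a, b))
    simp only [Algebra.algebraMap_self, RingHom.coe_id, Matrix.map_id] at this
    exact this.trans (h _ _ _ hg)
  rw [← key, this]

theorem chern_inv (k : ℕ) : Inv (chernPoly m k) := by
  intro g g' Θ hg
  rw [ev_chern, ev_chern, ← Matrix.smul_mul, Matrix.map_mul, ← Matrix.smul_mul,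
    det_one_add_mul_comm, Matrix.mul_smul, ← Matrix.map_mul, Matrix.mul_smul, ← Matrix.mul_assoc,
    hg, Matrix.one_mul]

theorem prod_inv (s : Multiset ℕ) : Inv (s.map (chernPoly m)).prod := by
  intro g g' Θ hg
  simp only [map_multiset_prod, Multiset.map_map, Function.comp, chern_inv _ g g' Θ hg]

theorem prod_homog (s : Multiset ℕ) : (s.map (chernPoly m)).prod.IsHomogeneous s.sum := by
  induction s using Multiset.induction with
  | empty => exact isHomogeneous_one _ _
  | cons k s ih => simpa using (chern_homog k).mul ih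

omit [Algebra ℂ R] in
theorem minors_two (A : Matrix (Fin m) (Fin m) R) : 2 * ∑ s ∈ univ.powersetCard 2,
    (A.submatrix (Subtype.val : s → Fin m) (Subtype.val : s → Fin m)).det =
      A.trace ^ 2 - (A * A).trace := by
  let G : Fin m × Fin m → R := fun p => A p.1 p.1 * A p.2 p.2 - A p.1 p.2 * A p.2 p.1
  have h1 : A.trace ^ 2 - (A * A).trace = ∑ p, G p := by
    simp only [G, trace, Matrix.diag, Matrix.mul_apply, sq, sum_mul_sum, Fintype.sum_prod_type,
      sum_sub_distrib]
  have h2 : ∑ p with p.1 < p.2, G p = ∑ s ∈ univ.powersetCard 2,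
      (A.submatrix (Subtype.val : s → Fin m) (Subtype.val : s → Fin m)).det := by
    refine sum_bij (fun p _ => {p.1, p.2}) ?_ ?_ ?_ ?_
    · intro p hp
      simp [card_pair (mem_filter.1 hp).2.ne]
    · intro p hp q hq h
      have a := (mem_filter.1 hp).2
      have b := (mem_filter.1 hq).2
      rcases Set.pair_eq_pair_iff.1 (by simpa using congrArg ((↑) : Finset (Fin m) → Set (Fin m)) h)
        with h | h
      · exact Prod.ext h.1 h.2
      · rw [h.1, h.2] at a; exact absurd a b.not_gt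
    · intro s hs
      obtain ⟨a, b, hab, rfl⟩ := card_eq_two.1 (mem_powersetCard.1 hs).2
      rcases lt_or_gt_of_ne hab with h | h
      · exact ⟨(a, b), by simpa using h, rfl⟩
      · exact ⟨(b, a), by simpa using h, pair_comm _ _⟩
    · intro p hp
      have a := (mem_filter.1 hp).2
      let e : Fin 2 ≃ ({p.1, p.2} : Finset (Fin m)) :=
        Equiv.ofBijective ![⟨p.1, by simp⟩, ⟨p.2, by simp⟩] (by
          rw [Fintype.bijective_iff_injective_and_card]
          refine ⟨fun i j h => ?_, by rw [Fintype.card_coe, card_pair a.ne]; rfl⟩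
          fin_cases i <;> fin_cases j <;> simp_all [a.ne, a.ne'])
      rw [← det_submatrix_equiv_self e, det_fin_two]
      rfl
  have h3 : ∑ p with p.2 < p.1, G p = ∑ p with p.1 < p.2, G p :=
    sum_equiv (Equiv.prodComm _ _) (by simp) fun p _ => by
      simp only [G, Equiv.prodComm_apply, Prod.fst_swap, Prod.snd_swap]; ring
  rw [h1, ← h2, two_mul, ← sum_filter_add_sum_filter_not univ fun p => p.1 < p.2, add_right_inj,
    ← h3]
  refine sum_subset (fun p => by simpa using le_of_lt) fun p h1 h2 => ?_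
  have : p.1 = p.2 := le_antisymm (by simpa using h2) (by simpa using h1)
  simp [G, this]

theorem ev_chern_two (Θ : Matrix (Fin m) (Fin m) R) (h : Θ.trace = 0) :
    ev Θ (chernPoly m 2) = ((8 * Real.pi ^ 2 : ℝ) : ℂ)⁻¹ • (Θ * Θ).trace := by
  have := minors_two ((I / (2 * Real.pi)) • Θ)
  rw [← coeff_det_one_add_X_smul_eq_sum_minors, ← ev_chern, trace_smul, h, smul_zero,
    Matrix.smul_mul, Matrix.mul_smul, smul_smul, trace_smul, two_mul, ← two_smul ℂ] at this
  rw [← one_smul ℂ (ev Θ _), ← inv_mul_cancel₀ (two_ne_zero' ℂ), mul_smul, this, zero_pow two_ne_zero,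
    zero_sub, ← neg_smul, smul_smul]
  congr 1
  have : (Real.pi : ℂ) ≠ 0 := by exact_mod_cast Real.pi_ne_zero
  push_cast
  field_simp
  rw [I_sq]; norm_num

theorem det_nonneg {H A S : Matrix (Fin m) (Fin m) ℂ} (hH : H.PosDef) (hA : (A * H)ᴴ = -(A * H))
    (hS : S.det ≠ 0) (h : A * S + S * Aᵀ = 0) : 0 ≤ (A * H).det := by
  let w : ℝ → ℂ := fun s => ((s : ℂ) • H + (1 - s : ℂ) • (A * H)).det
  have hw : Continuous w := Continuous.matrix_det (by fun_prop)
  have e : ∀ s t : ℂ, (s • H + t • (A * H)).det = (s • 1 + t • A).det * H.det := fun s t => by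
    rw [← det_mul, Matrix.add_mul, Matrix.smul_mul, Matrix.smul_mul, Matrix.one_mul]
  have e2 : ∀ s t : ℂ, (s • 1 + t • A).det = (s • 1 + (-t) • A).det := fun s t => by
    refine mul_right_cancel₀ hS ?_
    rw [← det_mul, ← det_transpose (s • 1 + (-t) • A), mul_comm, ← det_mul, Matrix.add_mul,
      Matrix.smul_mul, Matrix.smul_mul, eq_neg_of_add_eq_zero_left h]
    simp [Matrix.mul_add]
  have h1 : ∀ s, (w s).im = 0 := fun s => by
    rw [← conj_eq_iff_im, ← star_def, ← det_conjTranspose, conjTranspose_add, conjTranspose_smul,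
      conjTranspose_smul, hA, hH.1.eq, smul_neg, ← neg_smul, e]
    simp only [w, e]
    rw [e2]; simp
  have h2 : ∀ s, 0 < s → w s ≠ 0 := fun s hs h0 => by
    obtain ⟨v, hv, h3⟩ := exists_mulVec_eq_zero_iff.2 h0
    have h4 := hH.dotProduct_mulVec_pos hv
    have h5 : star (star v ⬝ᵥ (A * H) *ᵥ v) = -(star v ⬝ᵥ (A * H) *ᵥ v) := by
      rw [← star_dotProduct, star_mulVec, hA, dotProduct_comm, vecMul_neg, dotProduct_comm,
        neg_dotProduct,
        dotProduct_mulVec]
    have h6 := congrArg (fun u => (star v ⬝ᵥ u).re) h3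
    have h7 := congrArg re h5
    have h8 := (Complex.pos_iff.1 h4).1
    simp only [add_mulVec, smul_mulVec, dotProduct_add, dotProduct_smul, smul_eq_mul, add_re,
      re_ofReal_mul, dotProduct_zero, zero_re, ← ofReal_one, ← ofReal_sub, star_def, conj_re,
      neg_re] at h6 h7
    have h9 : (star v ⬝ᵥ (A * H) *ᵥ v).re = 0 := by linarith
    rw [h9] at h6
    nlinarith
  have h3 : w 0 = (A * H).det := by simp [w]
  have h4 : 0 < (w 1).re := by simpa [w] using (Complex.pos_iff.1 hH.det_pos).1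
  rw [← h3, Complex.nonneg_iff]
  refine ⟨not_lt.1 fun h5 => ?_, (h1 0).symm⟩
  obtain ⟨s, hs, h6⟩ := intermediate_value_Ioo (zero_le_one' ℝ)
    (continuous_re.comp hw).continuousOn ⟨h5, h4⟩
  exact h2 s hs.1 (Complex.ext h6 (h1 s))

end

end Pool.Agent.MP_12a176_ag
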