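import Mathlib

/- Homogeneous polynomials are dominated by the power of the sum of squares, against functionals
that are nonnegative on powers of real linear forms. -/

set_option autoImplicit false

namespace Pool.Agent.MP_12a176_ag

open MvPolynomial MeasureTheory Finset
open scoped ComplexConjugate ComplexOrder

noncomputable section

variable {ι : Type} [Fintype ι] [DecidableEq ι]

/-- A real linear form. -/
def lin (g : ι → ℝ) : MvPolynomial ι ℂ := ∑ a, (g a : ℂ) • X a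

theorem polar {P : MvPolynomial ι ℂ} {m : ℕ} (hP : P.IsHomogeneous m)
    (Λ : MvPolynomial ι ℂ →ₗ[ℂ] ℂ) (h : ∀ g, Λ (lin g ^ m) = 0) : Λ P = 0 := by
  let F : MvPolynomial ι ℂ := ∑ k ∈ piAntidiag univ m,
    monomial (Finsupp.equivFunOnFinite.symm k) (Nat.multinomial univ k * Λ (∏ a, X a ^ k a))
  have hF : F = 0 := by
    refine MvPolynomial.funext_set (fun _ => Set.range ((↑) : ℝ → ℂ))
      (fun _ => Set.infinite_range_of_injective Complex.ofReal_injective) fun x hx => ?_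
    choose g hg using fun a => hx a trivial
    rw [map_zero, ← h g, lin, sum_pow_eq_sum_piAntidiag, map_sum, map_sum]
    refine sum_congr rfl fun k _ => ?_
    rw [eval_monomial, Finsupp.prod_fintype _ _ (by simp), ← nsmul_eq_mul, ← nsmul_eq_mul,
      map_nsmul, smul_mul_assoc]
    simp only [smul_pow, prod_smul, map_smul, smul_eq_mul, hg, Finsupp.coe_equivFunOnFinite_symm]
    rw [mul_comm]
  rw [P.as_sum, map_sum]
  refine sum_eq_zero fun d hd => ?_
  have e := congrArg (coeff d) hF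
  have hd' : (d : ι → ℕ) ∈ piAntidiag univ m := by
    have := hP (mem_support_iff.1 hd)
    simp only [mem_piAntidiag, mem_univ, implies_true, and_true]
    rw [← this, Finsupp.weight_apply, Finsupp.sum_fintype _ _ (by simp)]
    simp
  rw [coeff_sum, sum_eq_single (d : ι → ℕ) (fun k _ hk => by
    rw [coeff_monomial, if_neg fun h => hk (by rw [← h]; rfl)]) (fun h => absurd hd' h)] at e
  simp only [Finsupp.equivFunOnFinite_symm_coe, coeff_monomial, if_true, coeff_zero, mul_eq_zero,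
    Nat.cast_eq_zero, (Nat.multinomial_pos _ _).ne', false_or] at e
  rw [monomial_eq, C_mul', map_smul, Finsupp.prod_fintype _ _ (by simp), e, smul_zero]

omit [Fintype ι] [DecidableEq ι] in
theorem mem_of_dual (W : Submodule ℂ (MvPolynomial ι ℂ)) (P : MvPolynomial ι ℂ)
    (h : ∀ Λ : MvPolynomial ι ℂ →ₗ[ℂ] ℂ, (∀ w ∈ W, Λ w = 0) → Λ P = 0) : P ∈ W := by
  by_contra hP
  obtain ⟨Λ, h1, h2⟩ := W.exists_dual_map_eq_bot_of_notMem hP inferInstance
  exact h1 (h Λ fun w hw => (Submodule.eq_bot_iff _).1 h2 _ ⟨w, hw, rfl⟩)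

theorem mem_span_lin {P : MvPolynomial ι ℂ} {m : ℕ} (hP : P.IsHomogeneous m) :
    P ∈ Submodule.span ℂ (Set.range fun g => lin (ι := ι) g ^ m) :=
  mem_of_dual _ _ fun Λ h => polar hP Λ fun g => h _ (Submodule.subset_span ⟨g, rfl⟩)

omit [DecidableEq ι] in
theorem lin_pow (Λ : MvPolynomial ι ℂ →ₗ[ℂ] ℂ) (m : ℕ) (g : ι → ℝ) :
    Λ (lin g ^ m) = ∑ j : Fin m → ι, (∏ i, (g (j i) : ℂ)) * Λ (∏ i, X (j i)) := by
  rw [lin, Fintype.sum_pow, map_sum]
  exact sum_congr rfl fun j _ => by rw [prod_smul, map_smul, smul_eq_mul]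

omit [DecidableEq ι] in
theorem cont_lin (Λ : MvPolynomial ι ℂ →ₗ[ℂ] ℂ) (m : ℕ) :
    Continuous fun g : EuclideanSpace ℝ ι => Λ (lin g ^ m) := by
  simp only [lin_pow]; fun_prop

/-- A weight. -/
def wt (g : EuclideanSpace ℝ ι) : ℝ := max 0 (1 - ‖g‖)

omit [DecidableEq ι] in
theorem wt_cont : Continuous (wt (ι := ι)) := by unfold wt; fun_prop

omit [DecidableEq ι] in
theorem wt_supp : HasCompactSupport (wt (ι := ι)) :=
  HasCompactSupport.intro (isCompact_closedBall 0 1) fun g hg =>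
    max_eq_left (by simp only [mem_closedBall_zero_iff, not_le] at hg; linarith)

omit [DecidableEq ι] in
theorem wt_int {F : Type} [NormedAddCommGroup F] [NormedSpace ℝ F] {φ : EuclideanSpace ℝ ι → F}
    (h : Continuous φ) : Integrable fun g => wt g • φ g :=
  (wt_cont.smul h).integrable_of_hasCompactSupport wt_supp.smul_right

/-- An average of powers of linear forms. -/
def avg (m : ℕ) (φ : EuclideanSpace ℝ ι → ℂ) : MvPolynomial ι ℂ :=
  ∑ j : Fin m → ι, (∫ g, wt g • (φ g * ∏ i, (g (j i) : ℂ))) • ∏ i, X (j i)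

omit [DecidableEq ι] in
theorem avg_apply (Λ : MvPolynomial ι ℂ →ₗ[ℂ] ℂ) (m : ℕ) {φ : EuclideanSpace ℝ ι → ℂ}
    (h : Continuous φ) : Λ (avg m φ) = ∫ g, wt g • (φ g * Λ (lin g ^ m)) := by
  simp only [avg, map_sum, map_smul, smul_eq_mul, lin_pow, mul_sum, smul_sum, ← integral_mul_const]
  rw [integral_finsetSum]
  · simp only [smul_mul_assoc, mul_assoc]
  · exact fun j _ => wt_int (by fun_prop)

theorem bound_l1 {P : MvPolynomial ι ℂ} {m : ℕ} (hP : P.IsHomogeneous m) :
    ∃ C : ℝ, ∀ Λ : MvPolynomial ι ℂ →ₗ[ℂ] ℂ,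
      ‖Λ P‖ ≤ C * ∫ g : EuclideanSpace ℝ ι, wt g • ‖Λ (lin g ^ m)‖ := by
  let W : Submodule ℂ (MvPolynomial ι ℂ) :=
    { carrier := {P | ∃ C : ℝ, ∀ Λ : MvPolynomial ι ℂ →ₗ[ℂ] ℂ,
        ‖Λ P‖ ≤ C * ∫ g : EuclideanSpace ℝ ι, wt g • ‖Λ (lin g ^ m)‖}
      add_mem' := fun ⟨C, h⟩ ⟨C', h'⟩ => ⟨C + C', fun Λ => by
        rw [map_add, add_mul]; exact (norm_add_le _ _).trans (add_le_add (h Λ) (h' Λ))⟩
      zero_mem' := ⟨0, by simp⟩
      smul_mem' := fun c P ⟨C, h⟩ => ⟨‖c‖ * C, fun Λ => by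
        rw [map_smul, norm_smul, mul_assoc]
        exact mul_le_mul_of_nonneg_left (h Λ) (norm_nonneg _)⟩ }
  have hW : ∀ φ : EuclideanSpace ℝ ι → ℂ, Continuous φ → avg m φ ∈ W := by
    intro φ hφ
    obtain ⟨C, hC⟩ := wt_supp.isCompact.exists_bound_of_continuousOn hφ.continuousOn
    refine ⟨C, fun Λ => ?_⟩
    rw [avg_apply Λ m hφ, ← integral_const_mul]
    refine norm_integral_le_of_norm_le ((wt_int (cont_lin Λ m).norm).const_mul C)
      (.of_forall fun g => ?_)
    by_cases h : wt g = 0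
    · simp [h]
    · have h1 := hC g (subset_tsupport _ h)
      have h2 : 0 ≤ wt g := le_max_left _ _
      rw [norm_smul, norm_mul, Real.norm_of_nonneg h2, smul_eq_mul, mul_left_comm]
      gcongr
  refine mem_of_dual W P fun Λ h => polar hP Λ fun g => ?_
  have hc := cont_lin Λ m
  have h1 := h _ (hW _ (Complex.continuous_conj.comp hc))
  rw [avg_apply Λ m (Complex.continuous_conj.comp hc)] at h1
  simp only [Function.comp, Complex.conj_mul', Complex.real_smul] at h1
  norm_cast at h1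
  by_contra hne
  let u : EuclideanSpace ℝ ι := WithLp.toLp 2 g
  have ht : 0 < (‖u‖ + 1)⁻¹ := by positivity
  refine (Continuous.integral_pos_of_hasCompactSupport_nonneg_nonzero (x := (‖u‖ + 1)⁻¹ • u)
    (wt_cont.mul (hc.norm.pow 2)) wt_supp.mul_right
    (fun g => mul_nonneg (le_max_left _ _) (sq_nonneg _)) (mul_ne_zero ?_ ?_)).ne' h1
  · refine (lt_max_of_lt_right ?_).ne'
    rw [norm_smul, Real.norm_of_nonneg ht.le, sub_pos, inv_mul_lt_iff₀ (by positivity)]
    linarith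
  · have : lin ((‖u‖ + 1)⁻¹ • u).ofLp = (((‖u‖ + 1)⁻¹ : ℝ) : ℂ) • lin g := by
      simp only [lin, smul_sum, smul_smul, u, PiLp.smul_apply, smul_eq_mul, Complex.ofReal_mul]
    refine pow_ne_zero _ (norm_ne_zero_iff.2 ?_)
    rw [this, smul_pow, map_smul]
    exact smul_ne_zero (pow_ne_zero _ (by exact_mod_cast ht.ne')) hne

theorem avg_one [Nonempty ι] (n : ℕ) : ∃ c : ℝ, 0 < c ∧
    avg (ι := ι) (2 * n) (fun _ => 1) = (c : ℂ) • (∑ a, X a ^ 2) ^ n := by
  let G : EuclideanSpace ℝ ι → ℝ := fun r => ∫ g, wt g * inner ℝ r g ^ (2 * n)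
  have h1 : ∀ r s, ‖r‖ = ‖s‖ → G r = G s := by
    intro r s h
    let T := Submodule.reflection (ℝ ∙ (r - s))ᗮ
    have hT : T r = s := Submodule.reflection_sub h
    refine Eq.trans ?_ (T.measurePreserving.integral_comp T.toHomeomorph.measurableEmbedding
      fun g => wt g * inner ℝ s g ^ (2 * n))
    simp only [G, ← hT, T.inner_map_map, wt, T.norm_map]
  let e : EuclideanSpace ℝ ι := EuclideanSpace.single (Classical.arbitrary ι) 1
  have he : ‖e‖ = 1 := by simp [e]
  have h2 : ∀ r, G r = G e * (‖r‖ ^ 2) ^ n := by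
    intro r
    rw [h1 r (‖r‖ • e) (by simp [norm_smul, he])]
    simp only [G, real_inner_smul_left, mul_pow, ← pow_mul, ← integral_mul_const]
    congr 1; ext g; ring
  refine ⟨G e, Continuous.integral_pos_of_hasCompactSupport_nonneg_nonzero (x := (1 / 2 : ℝ) • e)
    (wt_cont.mul (by fun_prop)) wt_supp.mul_right
    (fun g => mul_nonneg (le_max_left _ _) (by rw [pow_mul]; positivity)) (mul_ne_zero ?_ ?_), ?_⟩
  · simp [wt, norm_smul, he]; norm_num
  · simp [inner_smul_right, he]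
  · refine MvPolynomial.funext_set (fun _ => Set.range ((↑) : ℝ → ℂ))
      (fun _ => Set.infinite_range_of_injective Complex.ofReal_injective) fun x hx => ?_
    choose r hr using fun a => hx a trivial
    have := avg_apply (aeval x).toLinearMap (2 * n) (φ := fun _ => 1) continuous_const
    simp only [AlgHom.toLinearMap_apply, aeval_eq_eval] at this
    rw [this]
    have h3 := congrArg ((↑) : ℝ → ℂ) (h2 (WithLp.toLp 2 r))
    rw [EuclideanSpace.real_norm_sq_eq] at h3
    simp only [G, ← integral_complex_ofReal, PiLp.inner_apply] at h3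
    simp only [smul_eval, map_pow, map_sum, eval_X, lin, ← hr, G, ← integral_complex_ofReal,
      PiLp.inner_apply]
    convert h3 using 1
    · congr 1; ext g; simp
    · simp [← integral_complex_ofReal]

theorem cone_bound [Nonempty ι] {n : ℕ} {P : MvPolynomial ι ℂ} (hP : P.IsHomogeneous (2 * n)) :
    ∃ C : ℝ, 0 < C ∧ ∀ Λ : MvPolynomial ι ℂ →ₗ[ℂ] ℂ, (∀ g, 0 ≤ Λ (lin g ^ (2 * n))) →
      ‖Λ P‖ ≤ C * (Λ ((∑ a, X a ^ 2) ^ n)).re := by
  obtain ⟨C, hC⟩ := bound_l1 hP
  obtain ⟨c, h0, hc⟩ := avg_one (ι := ι) n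
  refine ⟨(|C| + 1) * c, by positivity, fun Λ h => (hC Λ).trans ?_⟩
  have h1 := avg_apply Λ (2 * n) (φ := fun _ => 1) continuous_const
  have h2 : ∀ g, Λ (lin g ^ (2 * n)) = ‖Λ (lin g ^ (2 * n))‖ := fun g =>
    (Complex.norm_of_nonneg' (h g)).symm
  have h3 : ∫ g : EuclideanSpace ℝ ι, wt g • ‖Λ (lin g ^ (2 * n))‖ =
      c * (Λ ((∑ a, X a ^ 2) ^ n)).re := by
    rw [← Complex.re_ofReal_mul, ← smul_eq_mul (c : ℂ), ← map_smul, ← hc, h1,
      ← Complex.ofReal_re (∫ _, _), ← integral_complex_ofReal]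
    congr 2; ext g
    rw [one_mul, h2]; simp
  have h4 : 0 ≤ ∫ g : EuclideanSpace ℝ ι, wt g • ‖Λ (lin g ^ (2 * n))‖ :=
    integral_nonneg fun g => smul_nonneg (le_max_left _ _) (norm_nonneg _)
  rw [mul_assoc, ← h3]
  exact mul_le_mul_of_nonneg_right (by linarith [le_abs_self C]) h4

end

end Pool.Agent.MP_12a176_ag
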