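import Mathlib

/- Hyper-Kaehler metrics in holomorphic charts and their Chern-Weil numbers. -/

set_option autoImplicit false

namespace Pool.Agent.MP_12a176_ag

open scoped Manifold ContDiff ComplexConjugate ComplexOrder
open Complex Matrix

noncomputable section

variable {m : ℕ}

/-- Wirtinger derivatives: in `z_k` for `c = -I`, in `conj z_k` for `c = I`. -/
def wirt (c : ℂ) (k : Fin m) (f : (Fin m → ℂ) → ℂ) (z : Fin m → ℂ) : ℂ :=
  (fderiv ℝ f z (Pi.single k 1) + c * fderiv ℝ f z (Pi.single k I)) / 2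

/-- The `dz_k` part of the connection matrix `∂H H⁻¹` of the Chern connection of `H`. -/
def conn (H : (Fin m → ℂ) → Matrix (Fin m) (Fin m) ℂ) (k : Fin m) (z : Fin m → ℂ) :
    Matrix (Fin m) (Fin m) ℂ :=
  Matrix.of (fun i j => wirt (-I) k (fun w => H w i j) z) * (H z)⁻¹

/-- The `k`-th Chern polynomial: the part of degree `k` of `det (1 + (i / 2π) Θ)`. -/
def chernPoly (m k : ℕ) : MvPolynomial (Fin m × Fin m) ℂ :=
  (Matrix.charpolyRev ((-(I / (2 * Real.pi))) • Matrix.mvPolynomialX (Fin m) (Fin m) ℂ)).coeff k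

/-- With `x k l = dz_k ∧ d(conj z_l)`: the number `d` with `P(Θ) = d • vol`, where `Θ` is the
curvature matrix of `H` at `z` and `vol` is the product of the `(i/2) dz_k ∧ d(conj z_k)`. -/
def cwDens {R : Type} [CommRing R] [Algebra ℂ R] (x : Fin m → Fin m → R)
    (H : (Fin m → ℂ) → Matrix (Fin m) (Fin m) ℂ) (P : MvPolynomial (Fin m × Fin m) ℂ)
    (z : Fin m → ℂ) : ℂ :=
  Classical.epsilon fun d : ℂ =>
    MvPolynomial.aeval (fun a : Fin m × Fin m =>
      ∑ k, ∑ l, (-wirt I l (fun w => conn H k w a.1 a.2) z) • x k l) P = d • ∏ k, (I / 2) • x k k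

/-- The 2-form `a ∧ b`. -/
def wedge {W : Type} [AddCommGroup W] [Module ℂ W] (a b : W) : ExteriorAlgebra ℂ W :=
  ExteriorAlgebra.ι ℂ a * ExteriorAlgebra.ι ℂ b

theorem wedge_central {W : Type} [AddCommGroup W] [Module ℂ W] (a b : W) :
    wedge a b ∈ Subalgebra.center ℂ (ExteriorAlgebra ℂ W) := by
  rw [Subalgebra.mem_center_iff, wedge]
  intro y
  induction y using ExteriorAlgebra.induction with
  | algebraMap r => exact Algebra.commutes _ _
  | ι c =>
    have h1 := eq_neg_of_add_eq_zero_left (ExteriorAlgebra.ι_add_mul_swap (R := ℂ) c a)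
    have h2 := eq_neg_of_add_eq_zero_left (ExteriorAlgebra.ι_add_mul_swap (R := ℂ) c b)
    rw [← mul_assoc, h1, neg_mul, mul_assoc, h2, mul_neg, neg_neg, mul_assoc]
  | mul x y hx hy => rw [mul_assoc, hy, ← mul_assoc, hx, mul_assoc, mul_assoc]
  | add x y hx hy => rw [add_mul, mul_add, hx, hy]

/-- `cwDens` in the centre of the exterior algebra (a commutative ring that holds the even
forms), with `x k l = a k ∧ b l`. -/
def extDens {W : Type} [AddCommGroup W] [Module ℂ W] (a b : Fin m → W)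
    (H : (Fin m → ℂ) → Matrix (Fin m) (Fin m) ℂ) (P : MvPolynomial (Fin m × Fin m) ℂ)
    (z : Fin m → ℂ) : ℂ :=
  cwDens (R := Subalgebra.center ℂ (ExteriorAlgebra ℂ W))
    (fun k l => ⟨wedge (a k) (b l), wedge_central _ _⟩) H P z

/-- The covector `dz_k`. -/
def dz (k : Fin m) : (Fin m → ℂ) →ₗ[ℝ] ℂ := LinearMap.proj k

/-- The covector `d(conj z_k)`. -/
def dzb (k : Fin m) : (Fin m → ℂ) →ₗ[ℝ] ℂ := conjAe.toLinearMap ∘ₗ LinearMap.proj k

/-- On `U`, `H` is a smooth Kaehler metric and `S` is holomorphic and parallel. -/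
structure LocalHK (U : Set (Fin m → ℂ)) (H S : (Fin m → ℂ) → Matrix (Fin m) (Fin m) ℂ) : Prop where
  smooth : ∀ i j, ContDiffOn ℝ ∞ (fun z => H z i j) U
  kaehler : ∀ z ∈ U, ∀ i j k, wirt (-I) k (fun w => H w i j) z = wirt (-I) i (fun w => H w k j) z
  holomorphic : ∀ i j, AnalyticOnNhd ℂ (fun z => S z i j) U
  parallel : ∀ z ∈ U, ∀ k, Matrix.of (fun i j => wirt (-I) k (fun w => S w i j) z) =
    conn H k z * S z + S z * (conn H k z)ᵀ

variable {M : Type*} [TopologicalSpace M] [ChartedSpace (Fin m → ℂ) M]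

/-- The Jacobian matrix at `z` of the change from the chart at `p` to the chart at the point with
coordinate `z`. -/
def jac (p : M) (z : Fin m → ℂ) : Matrix (Fin m) (Fin m) ℂ :=
  Matrix.of fun a i => wirt (-I) i (fun w => chartAt (Fin m → ℂ) ((chartAt (Fin m → ℂ) p).symm z)
    ((chartAt (Fin m → ℂ) p).symm w) a) z

/-- The matrix in the chart at `p` of the Hermitian forms `(v, w) ↦ vᵀ (h x) (conj w)`. -/
def metricIn (h : M → Matrix (Fin m) (Fin m) ℂ) (p : M) (z : Fin m → ℂ) :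
    Matrix (Fin m) (Fin m) ℂ :=
  (jac p z)ᵀ * h ((chartAt (Fin m → ℂ) p).symm z) * (jac p z).map conj

/-- The matrix in the chart at `p` of the bilinear forms `(v, w) ↦ vᵀ (σ x) w`. -/
def formIn (σ : M → Matrix (Fin m) (Fin m) ℂ) (p : M) (z : Fin m → ℂ) :
    Matrix (Fin m) (Fin m) ℂ :=
  (jac p z)ᵀ * σ ((chartAt (Fin m → ℂ) p).symm z) * jac p z

/-- `h` is a Kaehler metric and `σ` a parallel holomorphic symplectic form. -/
structure IsHKMetric (h σ : M → Matrix (Fin m) (Fin m) ℂ) : Prop where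
  posDef : ∀ x, (h x).PosDef
  skew : ∀ x, (σ x)ᵀ = -σ x
  nondegenerate : ∀ x, (σ x).det ≠ 0
  charts : ∀ p, LocalHK (chartAt (Fin m → ℂ) p).target (metricIn h p) (formIn σ p)

/-- The integral over `M` of the Chern-Weil form `P(Θ)` of the metric `h`, computed chart by
chart with the partition of unity `ρ`. -/
def charNumber (h : M → Matrix (Fin m) (Fin m) ℂ) (ρ : PartitionOfUnity M M Set.univ)
    (P : MvPolynomial (Fin m × Fin m) ℂ) : ℝ :=
  ∑ᶠ p : M, ∫ z in (chartAt (Fin m → ℂ) p).target,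
    ρ p ((chartAt (Fin m → ℂ) p).symm z) * (extDens dz dzb (metricIn h p) P z).re

end

end Pool.Agent.MP_12a176_ag
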