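import Pool.Agent.MP_12a176_ag.Defs

/- Top powers of (1,1)-forms. -/

set_option autoImplicit false

namespace Pool.Agent.MP_12a176_ag

open scoped ComplexConjugate
open Complex Finset

noncomputable section

variable {m : ℕ} {R : Type} [CommRing R] [Algebra ℂ R]

/-- The (1,1)-form with matrix `ρ`. -/
def form (x : Fin m → Fin m → R) (ρ : Matrix (Fin m) (Fin m) ℂ) : R := ∑ k, ∑ l, ρ k l • x k l

/-- What is used of the products `dz_k ∧ d(conj z_l)`. -/
structure Good (x : Fin m → Fin m → R) : Prop where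
  ne : (∏ k, x k k) ≠ 0
  left : ∀ k (u v : Fin m → ℂ), (∑ l, u l • x k l) * (∑ l, v l • x k l) = 0
  right : ∀ k j (u : Fin m → ℂ), (∑ l, u l • x k l) * (∑ l, u l • x j l) = 0

theorem prod_rows {x : Fin m → Fin m → R} (hx : Good x) (ρ : Matrix (Fin m) (Fin m) ℂ) :
    ∏ k, ∑ l, ρ k l • x k l = ρ.det • ∏ k, x k k := by
  let D : (Fin m → ℂ) [⋀^Fin m]→ₗ[ℂ] R :=
    { (MultilinearMap.mkPiAlgebra ℂ (Fin m) R).compLinearMap
        fun k => Fintype.linearCombination ℂ (x k) with
      map_eq_zero_of_eq' := fun v i j h hij => by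
        change ∏ k, ∑ l, v k l • x k l = 0
        rw [← mul_prod_erase _ _ (mem_univ i), ← mul_prod_erase _ _
          (mem_erase.2 ⟨hij.symm, mem_univ j⟩), ← mul_assoc, h, hx.right, zero_mul] }
  have hD : ∀ v, D v = ∏ k, ∑ l, v k l • x k l := fun v => rfl
  rw [← sub_eq_zero, ← Module.forall_dual_apply_eq_zero_iff ℂ]
  intro T
  have := congrArg (fun f => f ρ) ((T.compAlternatingMap D).eq_smul_basis_det (Pi.basisFun ℂ _))
  simp only [LinearMap.compAlternatingMap_apply, hD, AlternatingMap.smul_apply,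
    Pi.basisFun_det_apply, Pi.basisFun_apply] at this
  rw [map_sub, this, map_smul, sub_eq_zero, smul_eq_mul, smul_eq_mul, mul_comm]
  simp only [Pi.single_apply, ite_smul, one_smul, zero_smul, sum_ite_eq', mem_univ, if_true]
  rfl

theorem form_pow : ∃ N : ℕ, 0 < N ∧ ∀ {R : Type} [CommRing R] [Algebra ℂ R]
    {x : Fin m → Fin m → R}, Good x → ∀ ρ : Matrix (Fin m) (Fin m) ℂ,
    form x ρ ^ m = (N * ρ.det) • ∏ k, x k k := by
  classical
  refine ⟨#{f : Fin m → Fin m | Function.Bijective f},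
    card_pos.2 ⟨id, mem_filter.2 ⟨mem_univ _, Function.bijective_id⟩⟩, fun {R} _ _ {x} hx ρ => ?_⟩
  rw [form, Fintype.sum_pow, ← sum_filter_of_ne (p := Function.Bijective), mul_smul,
    ← prod_rows hx, Nat.cast_smul_eq_nsmul, ← sum_const]
  · refine sum_congr rfl fun f hf => ?_
    exact (mem_filter.1 hf).2.prod_comp fun k => ∑ l, ρ k l • x k l
  · intro f _ hf
    rw [← Finite.injective_iff_bijective]
    intro i j hij
    by_contra hne
    apply hf
    rw [← mul_prod_erase _ _ (mem_univ i), ← mul_prod_erase _ _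
      (mem_erase.2 ⟨Ne.symm hne, mem_univ j⟩), ← mul_assoc, hij, hx.left, zero_mul]

/-- The volume form. -/
def vol (x : Fin m → Fin m → R) : R := ∏ k, (I / 2) • x k k

theorem vol_eq (x : Fin m → Fin m → R) : vol x = (I / 2) ^ m • ∏ k, x k k := by
  rw [vol, prod_smul, prod_const, card_univ, Fintype.card_fin]

theorem vol_ne {x : Fin m → Fin m → R} (hx : Good x) : vol x ≠ 0 := by
  rw [vol_eq]
  exact smul_ne_zero (pow_ne_zero _ (by simp)) hx.ne

theorem eps_eq {x : Fin m → Fin m → R} (hx : Good x) {α : R} {d : ℂ} (h : α = d • vol x) :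
    (Classical.epsilon fun e : ℂ => α = e • vol x) = d :=
  smul_left_injective ℂ (vol_ne hx)
    ((Classical.epsilon_spec (p := fun e : ℂ => α = e • vol x) ⟨d, h⟩).symm.trans h)

theorem form_pow_vol (n : ℕ) : ∃ N : ℝ, 0 < N ∧ ∀ {R : Type} [CommRing R] [Algebra ℂ R]
    {x : Fin (2 * n) → Fin (2 * n) → R}, Good x → ∀ ρ : Matrix (Fin (2 * n)) (Fin (2 * n)) ℂ,
    form x ρ ^ (2 * n) = ((-1) ^ n * N * ρ.det) • vol x := by
  obtain ⟨N, h0, hN⟩ := form_pow (m := 2 * n)
  refine ⟨N * 4 ^ n, by positivity, fun {R} _ _ {x} hx ρ => ?_⟩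
  rw [hN hx, vol_eq, smul_smul, pow_mul]
  congr 1
  have : ((-1 : ℂ) ^ n * 4 ^ n) * ((I / 2) ^ 2) ^ n = 1 := by
    rw [← mul_pow, ← mul_pow, div_pow, I_sq]; norm_num
  push_cast
  linear_combination (-(N : ℂ) * ρ.det) * this

section ext

variable {W : Type} [AddCommGroup W] [Module ℂ W]

/-- The products of covectors in the centre. -/
def xw (a b : Fin m → W) (k l : Fin m) : Subalgebra.center ℂ (ExteriorAlgebra ℂ W) :=
  ⟨wedge (a k) (b l), wedge_central _ _⟩

theorem xw_sum (a b : Fin m → W) (k : Fin m) (u : Fin m → ℂ) :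
    ((∑ l, u l • xw a b k l : Subalgebra.center ℂ (ExteriorAlgebra ℂ W)) : ExteriorAlgebra ℂ W) =
      ExteriorAlgebra.ι ℂ (a k) * ExteriorAlgebra.ι ℂ (∑ l, u l • b l) := by
  rw [map_sum, mul_sum]
  refine (map_sum (Subalgebra.center ℂ (ExteriorAlgebra ℂ W)).val _ _).trans
    (sum_congr rfl fun l _ => ?_)
  rw [map_smul, map_smul, mul_smul_comm]
  rfl

theorem four (a b c d : W) (h : a = c ∨ b = d) : ExteriorAlgebra.ι ℂ a * ExteriorAlgebra.ι ℂ b *
    (ExteriorAlgebra.ι ℂ c * ExteriorAlgebra.ι ℂ d) = 0 := by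
  have s := fun a b : W => eq_neg_of_add_eq_zero_left (ExteriorAlgebra.ι_add_mul_swap (R := ℂ) a b)
  rcases h with rfl | rfl
  · rw [s a b, neg_mul, mul_assoc, ← mul_assoc (ExteriorAlgebra.ι ℂ a), ExteriorAlgebra.ι_sq_zero,
      zero_mul, mul_zero, neg_zero]
  · rw [s c b, mul_neg, mul_assoc, ← mul_assoc (ExteriorAlgebra.ι ℂ b), ExteriorAlgebra.ι_sq_zero,
      zero_mul, mul_zero, neg_zero]

theorem prod_xw_ne (a b : Fin m → W) (α β : Fin m → Module.Dual ℂ W)
    (h1 : ∀ k j, α k (a j) = if j = k then 1 else 0) (h2 : ∀ k j, α k (b j) = 0)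
    (h3 : ∀ k j, β k (a j) = 0) (h4 : ∀ k j, β k (b j) = if j = k then 1 else 0)
    (s : Finset (Fin m)) :
    (∏ k ∈ s, xw a b k k) ≠ 0 ∧ ∀ d : Module.Dual ℂ W, (∀ k ∈ s, d (a k) = 0 ∧ d (b k) = 0) →
      CliffordAlgebra.contractLeft d (∏ k ∈ s, xw a b k k).1 = 0 := by
  induction s using Finset.induction with
  | empty => exact ⟨by rw [prod_empty]; exact one_ne_zero,
      fun d _ => CliffordAlgebra.contractLeft_one _ _⟩
  | insert k s hk ih =>
    rw [prod_insert hk]
    set y := ∏ k ∈ s, xw a b k k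
    have e : ∀ d : Module.Dual ℂ W, CliffordAlgebra.contractLeft d y.1 = 0 →
        CliffordAlgebra.contractLeft d (xw a b k k * y).1 =
          d (a k) • (CliffordAlgebra.ι 0 (b k) * y.1) - d (b k) • (CliffordAlgebra.ι 0 (a k) * y.1) := by
      intro d hd
      change CliffordAlgebra.contractLeft d
        (CliffordAlgebra.ι 0 (a k) * CliffordAlgebra.ι 0 (b k) * y.1) = _
      rw [mul_assoc, CliffordAlgebra.contractLeft_ι_mul, CliffordAlgebra.contractLeft_ι_mul, hd]
      simp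
    have hne : ∀ j ∈ s, j ≠ k := fun j hj h => hk (h ▸ hj)
    refine ⟨fun h => ih.1 (Subtype.ext ?_), fun d hd => ?_⟩
    · have e1 := e _ (ih.2 (α k) fun j hj => ⟨by rw [h1, if_neg (hne j hj)], h2 _ _⟩)
      have e2 := ih.2 (β k) fun j hj => ⟨h3 _ _, by rw [h4, if_neg (hne j hj)]⟩
      rw [h, h1, h2, if_pos rfl, one_smul, zero_smul, sub_zero] at e1
      have e3 := congrArg (CliffordAlgebra.contractLeft (β k)) e1
      rw [CliffordAlgebra.contractLeft_ι_mul, e2, h4, if_pos rfl] at e3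
      simpa using e3.symm
    · rw [e _ (ih.2 d fun j hj => hd j (mem_insert_of_mem hj)), (hd k (mem_insert_self _ _)).1,
        (hd k (mem_insert_self _ _)).2]
      simp

end ext

/-- The Wirtinger components of a covector. -/
def comp (k : Fin m) (c : ℂ) : Module.Dual ℂ ((Fin m → ℂ) →ₗ[ℝ] ℂ) where
  toFun a := (a (Pi.single k 1) + c * a (Pi.single k I)) / 2
  map_add' a b := by simp only [LinearMap.add_apply]; ring
  map_smul' r a := by simp only [LinearMap.smul_apply, smul_eq_mul, RingHom.id_apply]; ring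

theorem good_dz : Good (xw (dz (m := m)) dzb) where
  ne := (prod_xw_ne dz dzb (fun k => comp k (-I)) (fun k => comp k I)
    (fun k j => by by_cases h : j = k <;> simp [comp, dz, h])
    (fun k j => by by_cases h : j = k <;> simp [comp, dzb, h])
    (fun k j => by by_cases h : j = k <;> simp [comp, dz, h])
    (fun k j => by by_cases h : j = k <;> simp [comp, dzb, h]) univ).1
  left k u v := Subtype.ext ((congrArg₂ (· * ·) (xw_sum _ _ k u) (xw_sum _ _ k v)).trans
    (four _ _ _ _ (Or.inl rfl)))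
  right k j u := Subtype.ext ((congrArg₂ (· * ·) (xw_sum _ _ k u) (xw_sum _ _ j u)).trans
    (four _ _ _ _ (Or.inr rfl)))

end

end Pool.Agent.MP_12a176_ag
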