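import Pool.Agent.MP_12a176_ag.Series

/- Gaussian moments of Hermitian forms. -/

set_option autoImplicit false

namespace Pool.Agent.MP_12a176_ag

open Finset Complex MeasureTheory Matrix

noncomputable section

variable {m : ℕ}

/-- The squared norm. -/
def sq2 (a : Fin m → ℂ) : ℝ := ∑ j, ‖a j‖ ^ 2

/-- The Gaussian weight. -/
def gw (a : Fin m → ℂ) : ℝ := Real.exp (-sq2 a) / Real.pi ^ m

theorem gw_pos (a : Fin m → ℂ) : 0 < gw a := by unfold gw; positivity

theorem gw_cont : Continuous (gw (m := m)) := by unfold gw sq2; fun_prop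

theorem gauss_one (p : ℕ) :
    ∫ z : ℂ, Real.exp (-‖z‖ ^ 2) / Real.pi * (‖z‖ ^ 2) ^ p = p.factorial := by
  have := Complex.integral_rpow_mul_exp_neg_rpow (p := 2) (q := (2 * p : ℕ)) (by norm_num)
    (lt_of_lt_of_le (by norm_num) (Nat.cast_nonneg _))
  rw [show (((2 * p : ℕ) : ℝ) + 2) / 2 = p + 1 by push_cast; ring, Real.Gamma_nat_eq_factorial]
    at this
  simp only [Real.rpow_natCast, Real.rpow_two, pow_mul] at this
  simp only [div_mul_eq_mul_div, integral_div, mul_comm (Real.exp _), this]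
  field_simp

theorem gauss_mono (α : Fin m → ℕ) : Integrable (fun a => gw a * ∏ j, (‖a j‖ ^ 2) ^ α j) ∧
    ∫ a, gw a * ∏ j, (‖a j‖ ^ 2) ^ α j = ∏ j, ((α j).factorial : ℝ) := by
  have e : ∀ a : Fin m → ℂ, gw a * ∏ j, (‖a j‖ ^ 2) ^ α j =
      ∏ j, Real.exp (-‖a j‖ ^ 2) / Real.pi * (‖a j‖ ^ 2) ^ α j := fun a => by
    simp [gw, sq2, prod_mul_distrib, ← Real.exp_sum]
  simp only [e]
  refine ⟨Integrable.fintype_prod (f := fun j (z : ℂ) =>
    Real.exp (-‖z‖ ^ 2) / Real.pi * (‖z‖ ^ 2) ^ α j) fun j => Integrable.of_integral_ne_zero ?_, ?_⟩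
  · rw [gauss_one]; positivity
  · rw [integral_fintype_prod_volume_eq_prod fun j (z : ℂ) =>
      Real.exp (-‖z‖ ^ 2) / Real.pi * (‖z‖ ^ 2) ^ α j]
    simp only [gauss_one]

theorem gauss_diag (θ : Fin m → ℝ) (k : ℕ) :
    Integrable (fun a => gw a * (∑ j, θ j * ‖a j‖ ^ 2) ^ k) ∧
    ((∫ a, gw a * (∑ j, θ j * ‖a j‖ ^ 2) ^ k : ℝ) : ℂ) =
      k.factorial * PowerSeries.coeff k (∏ j, geo (θ j)) := by
  have e : ∀ a : Fin m → ℂ, gw a * (∑ j, θ j * ‖a j‖ ^ 2) ^ k = ∑ α ∈ piAntidiag univ k,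
      (Nat.multinomial univ α * ∏ j, θ j ^ α j) * (gw a * ∏ j, (‖a j‖ ^ 2) ^ α j) := fun a => by
    simp only [sum_pow_eq_sum_piAntidiag, mul_sum, mul_pow, prod_mul_distrib]
    exact sum_congr rfl fun _ _ => by ring
  simp only [e]
  refine ⟨integrable_finsetSum _ fun α _ => (gauss_mono α).1.const_mul _, ?_⟩
  rw [integral_finsetSum _ fun α _ => (gauss_mono α).1.const_mul _, PowerSeries.coeff_prod,
    finsuppAntidiag, sum_map, mul_sum, ofReal_sum, ← sum_attach]
  refine sum_congr rfl fun α _ => ?_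
  have := Nat.multinomial_spec univ α.1
  rw [(mem_piAntidiag.1 α.2).1] at this
  rw [integral_const_mul, (gauss_mono α.1).2, ← this]
  simp [geo]
  ring

theorem gw_int {F : (Fin m → ℂ) → ℂ} (hF : Continuous F) {C : ℝ} {k : ℕ}
    (h : ∀ a, ‖F a‖ ≤ C * sq2 a ^ k) : Integrable fun a => gw a • F a := by
  refine ((gauss_diag (fun _ => 1) k).1.const_mul C).mono' (gw_cont.smul hF).aestronglyMeasurable
    (.of_forall fun a => ?_)
  rw [norm_smul, Real.norm_of_nonneg (gw_pos a).le, mul_left_comm]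
  simp only [one_mul]
  exact mul_le_mul_of_nonneg_left (h a) (gw_pos a).le

theorem form_diag (d : Fin m → ℝ) (a : Fin m → ℂ) :
    star a ⬝ᵥ diagonal (fun j => (d j : ℂ)) *ᵥ a = (∑ j, d j * ‖a j‖ ^ 2 : ℝ) := by
  simp only [dotProduct, mulVec_diagonal, Pi.star_apply, star_def, ofReal_sum]
  refine sum_congr rfl fun j _ => ?_
  rw [mul_left_comm, conj_mul']; simp

theorem herm_diag {K : Matrix (Fin m) (Fin m) ℂ} (hK : K.IsHermitian) :
    star (hK.eigenvectorUnitary : Matrix (Fin m) (Fin m) ℂ) * K * hK.eigenvectorUnitary =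
      diagonal fun j => (hK.eigenvalues j : ℂ) := by
  simpa [Function.comp_def] using hK.conjStarAlgAut_star_eigenvectorUnitary

theorem gauss_herm {K : Matrix (Fin m) (Fin m) ℂ} (hK : K.IsHermitian) (c : ℝ) (k : ℕ) :
    ∫ a, gw a • (c * (star a ⬝ᵥ K *ᵥ a)) ^ k =
      k.factorial * PowerSeries.coeff k (∏ j, geo (c * hK.eigenvalues j)) := by
  let U : Matrix (Fin m) (Fin m) ℂ := hK.eigenvectorUnitary
  have hU : star U * U = 1 := Unitary.coe_star_mul_self _
  have e : ∀ (A : Matrix (Fin m) (Fin m) ℂ) (b : Fin m → ℂ),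
      star (U *ᵥ b) ⬝ᵥ A *ᵥ U *ᵥ b = star b ⬝ᵥ (star U * A * U) *ᵥ b := fun A b => by
    rw [star_mulVec, ← dotProduct_mulVec, mulVec_mulVec, mulVec_mulVec, star_eq_conjTranspose]
  let f : (Fin m → ℂ) →ₗ[ℝ] Fin m → ℂ := (Matrix.toLin' U).restrictScalars ℝ
  have h1 : LinearMap.det f = 1 := by
    have := congrArg det hU
    rw [det_mul, star_eq_conjTranspose, det_conjTranspose, det_one, star_def,
      ← normSq_eq_conj_mul_self] at this
    rw [LinearMap.det_restrictScalars, Algebra.norm_complex_apply, LinearMap.det_toLin']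
    exact_mod_cast this
  have h2 := Measure.map_linearMap_addHaar_eq_smul_addHaar volume (h1.trans_ne one_ne_zero)
  rw [h1, inv_one, abs_one, ENNReal.ofReal_one, one_smul] at h2
  have h3 : Continuous fun a : Fin m → ℂ => gw a • (c * (star a ⬝ᵥ K *ᵥ a)) ^ k :=
    gw_cont.smul (by fun_prop)
  rw [← h2, integral_map f.continuous_of_finiteDimensional.aemeasurable h3.aestronglyMeasurable]
  have := (gauss_diag (fun j => c * hK.eigenvalues j) k).2
  push_cast at this
  rw [← this, ← integral_complex_ofReal]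
  congr 1
  ext b
  have h4 := e 1 b
  have h5 := e K b
  rw [Matrix.mul_one, hU, ← diagonal_one, ← ofReal_one, form_diag, form_diag] at h4
  rw [herm_diag, form_diag] at h5
  have h6 : gw (U *ᵥ b) = gw b := by
    simp only [one_mul, ofReal_inj] at h4
    simp only [gw, sq2, h4]
  change gw (U *ᵥ b) • (c * (star (U *ᵥ b) ⬝ᵥ K *ᵥ U *ᵥ b)) ^ k = _
  rw [h5, h6]
  simp [mul_sum, mul_assoc]

end

end Pool.Agent.MP_12a176_ag
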