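import Pool.Agent.MP_12a176_ag.Point

/- The curvature of a hyper-Kaehler metric has the symmetries used in the pointwise inequality. -/

set_option autoImplicit false

namespace Pool.Agent.MP_12a176_ag

open Complex Finset Matrix Filter Topology
open scoped ComplexOrder ContDiff ComplexConjugate

noncomputable section

variable {m : ℕ} {c d : ℂ} {k l : Fin m} {f g : (Fin m → ℂ) → ℂ} {z : Fin m → ℂ}
  {U : Set (Fin m → ℂ)}

theorem wirt_congr (h : f =ᶠ[𝓝 z] g) : wirt c k f z = wirt c k g z := by
  simp only [wirt, h.fderiv_eq]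

theorem wirt_mul (hf : DifferentiableAt ℝ f z) (hg : DifferentiableAt ℝ g z) :
    wirt c k (fun w => f w * g w) z = wirt c k f z * g z + f z * wirt c k g z := by
  simp only [wirt, fderiv_fun_mul hf hg, _root_.add_apply,
    _root_.smul_apply, smul_eq_mul]
  ring

theorem wirt_add (hf : DifferentiableAt ℝ f z) (hg : DifferentiableAt ℝ g z) :
    wirt c k (fun w => f w + g w) z = wirt c k f z + wirt c k g z := by
  simp only [wirt, fderiv_fun_add hf hg, _root_.add_apply]
  ring

theorem wirt_sum {F : Fin m → (Fin m → ℂ) → ℂ} (hF : ∀ a, DifferentiableAt ℝ (F a) z) :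
    wirt c k (fun w => ∑ a, F a w) z = ∑ a, wirt c k (F a) z := by
  simp only [wirt, fderiv_fun_sum fun a _ => hF a, _root_.sum_apply, mul_sum,
    ← sum_add_distrib, sum_div]

theorem wirt_conj : conj (wirt c k f z) = wirt (conj c) k (fun w => conj (f w)) z := by
  have := conjCLE.comp_fderiv (f := f) (x := z)
  simp only [wirt, show (fun w => conj (f w)) = conjCLE ∘ f from rfl, this]
  simp [map_ofNat]

theorem wirt_smooth (hU : IsOpen U) (h : ContDiffOn ℝ ∞ f U) : ContDiffOn ℝ ∞ (wirt c k f) U := by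
  have h1 : ContDiffOn ℝ ∞ (fderiv ℝ f) U := h.fderiv_of_isOpen hU (by simp)
  exact ((h1.clm_apply contDiffOn_const).add
    (contDiffOn_const.mul (h1.clm_apply contDiffOn_const))).div_const _

theorem wirt_comm (h : ContDiffAt ℝ ∞ f z) :
    wirt c l (wirt d k f) z = wirt d k (wirt c l f) z := by
  have h1 : DifferentiableAt ℝ (fderiv ℝ f) z :=
    (h.fderiv_right (m := 1) (by norm_cast)).differentiableAt one_ne_zero
  have h2 : ∀ (c : ℂ) (k : Fin m) (v : Fin m → ℂ), fderiv ℝ (wirt c k f) z v =
      (fderiv ℝ (fderiv ℝ f) z v (Pi.single k 1) +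
        c * fderiv ℝ (fderiv ℝ f) z v (Pi.single k I)) / 2 := fun c k v => by
    have := ((((h1.hasFDerivAt.clm_apply (hasFDerivAt_const (Pi.single k 1 : Fin m → ℂ) z))).add
      ((h1.hasFDerivAt.clm_apply (hasFDerivAt_const (Pi.single k I : Fin m → ℂ) z)).const_mul
        c)).mul_const 2⁻¹).fderiv
    simp only [← div_eq_mul_inv] at this
    rw [show wirt c k f = _ from rfl]
    erw [this]
    simp
    ring
  have h3 := h.isSymmSndFDerivAt (by simp; norm_cast)
  rw [wirt, wirt, h2, h2, h2, h2, h3 (Pi.single l 1), h3 (Pi.single l 1), h3 (Pi.single l I),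
    h3 (Pi.single l I)]
  ring

theorem wirt_hol (h : DifferentiableAt ℂ f z) : wirt I k f z = 0 := by
  have : (Pi.single k I : Fin m → ℂ) = I • (Pi.single k 1 : Fin m → ℂ) := by
    rw [← Pi.single_smul, smul_eq_mul, mul_one]
  rw [wirt, h.fderiv_restrictScalars ℝ, this]
  simp [← mul_assoc]

/-- Entrywise Wirtinger derivative. -/
def mw (c : ℂ) (k : Fin m) (A : (Fin m → ℂ) → Matrix (Fin m) (Fin m) ℂ) (z : Fin m → ℂ) :
    Matrix (Fin m) (Fin m) ℂ := Matrix.of fun i j => wirt c k (fun w => A w i j) z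

variable {A B H S : (Fin m → ℂ) → Matrix (Fin m) (Fin m) ℂ}

theorem mw_mul (hA : ∀ i j, DifferentiableAt ℝ (fun w => A w i j) z)
    (hB : ∀ i j, DifferentiableAt ℝ (fun w => B w i j) z) :
    mw c k (fun w => A w * B w) z = mw c k A z * B z + A z * mw c k B z := by
  ext i j
  simp only [mw, of_apply, Matrix.mul_apply, Matrix.add_apply, ← sum_add_distrib]
  rw [wirt_sum fun a => (hA i a).fun_mul (hB a j)]
  exact sum_congr rfl fun a _ => wirt_mul (hA i a) (hB a j)

theorem mw_congr (h : A =ᶠ[𝓝 z] B) : mw c k A z = mw c k B z := by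
  ext i j
  exact wirt_congr (h.mono fun w hw => by simp only [hw])

theorem det_smooth (h : ∀ i j, ContDiffOn ℝ ∞ (fun w => A w i j) U) :
    ContDiffOn ℝ ∞ (fun w => (A w).det) U := by
  simp only [det_apply']
  exact ContDiffOn.sum fun _ _ => contDiffOn_const.mul (contDiffOn_prod fun _ _ => h _ _)

theorem inv_smooth (h : ∀ i j, ContDiffOn ℝ ∞ (fun w => A w i j) U) (h0 : ∀ w ∈ U, (A w).det ≠ 0)
    (i j : Fin m) : ContDiffOn ℝ ∞ (fun w => (A w)⁻¹ i j) U := by
  simp only [Matrix.inv_def, Ring.inverse_eq_inv', Matrix.smul_apply, smul_eq_mul, adjugate_apply]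
  refine ((det_smooth h).inv h0).mul (det_smooth fun a b => ?_)
  simp only [updateRow_apply]
  split_ifs
  exacts [contDiffOn_const, h a b]

theorem conn_smooth (hU : IsOpen U) (h : ∀ i j, ContDiffOn ℝ ∞ (fun w => H w i j) U)
    (h0 : ∀ w ∈ U, (H w).det ≠ 0) (k i j : Fin m) :
    ContDiffOn ℝ ∞ (fun w => conn H k w i j) U := by
  simp only [conn, Matrix.mul_apply, of_apply]
  exact ContDiffOn.sum fun a _ => (wirt_smooth hU (h i a)).mul (inv_smooth h h0 a j)

theorem LocalHK.curv (h : LocalHK U H S) (hU : IsOpen U) (hH : ∀ w ∈ U, (H w).PosDef) (hz : z ∈ U)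
    (hS : (S z).det ≠ 0) : Curv (H z) (S z) fun k l => -mw I l (conn H k) z := by
  have n := hU.mem_nhds hz
  have h0 : ∀ w ∈ U, (H w).det ≠ 0 := fun w hw => (hH w hw).det_pos.ne'
  have d1 := fun i j => ((h.smooth i j).contDiffAt n).differentiableAt (by simp)
  have d2 := fun k i j => ((conn_smooth hU h.smooth h0 k i j).contDiffAt n).differentiableAt
    (by simp)
  have d3 := fun i j => (h.holomorphic i j z hz).differentiableAt.restrictScalars ℝ
  have e1 : ∀ k l, -mw I l (conn H k) z * H z =
      mw (-I) k H z * (H z)⁻¹ * mw I l H z - mw I l (mw (-I) k H) z := fun k l => by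
    rw [← mw_congr (A := fun w => conn H k w * H w) (B := mw (-I) k H) (eventually_of_mem n fun w hw =>
      nonsing_inv_mul_cancel_right _ _ (h0 w hw).isUnit), mw_mul (d2 k) d1, Matrix.neg_mul]
    exact (sub_add_cancel_right _ _).symm
  have e2 : ∀ c k, ∀ w ∈ U, (mw c k H w)ᴴ = mw (conj c) k H w := fun c k w hw => by
    ext i j
    exact wirt_conj.trans (wirt_congr (eventually_of_mem (hU.mem_nhds hw) fun u hu =>
      (hH u hu).1.apply i j))
  have e3 : ∀ l, mw I l S z = 0 := fun l => by
    ext i j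
    exact wirt_hol (h.holomorphic i j z hz).differentiableAt
  refine ⟨hH z hz, hS, fun k l => ?_, fun k l i a => ?_, fun k l => ?_⟩
  · rw [e1, e1, conjTranspose_sub, conjTranspose_mul, conjTranspose_mul, e2 _ _ _ hz, e2 _ _ _ hz,
      (hH z hz).1.inv.eq, map_neg, conj_I, neg_neg, Matrix.mul_assoc]
    congr 1
    ext i j
    refine wirt_conj.trans ((wirt_congr (eventually_of_mem n fun u hu => ?_)).trans
      (wirt_comm (d := I) (k := k) ((h.smooth i j).contDiffAt n)) |>.trans ?_)
    · exact (congrFun (congrFun (e2 (-I) k u hu) i) j).trans (by rw [map_neg, conj_I, neg_neg]; rfl)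
    · rw [conj_I]; rfl
  · refine congrArg Neg.neg (wirt_congr (eventually_of_mem n fun u hu => ?_))
    simp only [conn, Matrix.mul_apply, of_apply, h.kaehler u hu i _ k]
  · have e4 : mw I l (mw (-I) k S) z = 0 := by
      ext i j
      refine (wirt_comm ((h.holomorphic i j z hz).restrictScalars.contDiffAt)).trans
        ((wirt_congr (g := fun _ => 0) (eventually_of_mem n fun u hu =>
          wirt_hol (h.holomorphic i j u hu).differentiableAt)).trans ?_)
      simp [wirt]
    have e5 := mw_mul (c := I) (k := l) (d2 k) d3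
    have e6 := mw_mul (c := I) (k := l) (B := fun w => (conn H k w)ᵀ) d3 fun i j => d2 k j i
    rw [e3, Matrix.mul_zero, add_zero] at e5
    rw [e3, Matrix.zero_mul, zero_add] at e6
    rw [mw_congr (A := mw (-I) k S) (B := fun w => conn H k w * S w + S w * (conn H k w)ᵀ)
      (eventually_of_mem n fun u hu => h.parallel u hu k)] at e4
    rw [transpose_neg, Matrix.neg_mul, Matrix.mul_neg, ← neg_add, neg_eq_zero, ← e4, ← e5]
    refine (congrArg _ e6.symm).trans ?_
    ext i j
    refine (wirt_add ?_ ?_).symm <;> simp only [Matrix.mul_apply]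
    · exact DifferentiableAt.fun_sum fun a _ => (d2 k i a).mul (d3 a j)
    · exact DifferentiableAt.fun_sum fun a _ => (d3 i a).mul (d2 k j a)

end

end Pool.Agent.MP_12a176_ag
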