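import Pool.Agent.MP_12a176_ag.Geom

/- From pointwise inequalities to inequalities between characteristic numbers. -/

set_option autoImplicit false

namespace Pool.Agent.MP_12a176_ag

open Complex Finset Matrix Filter Topology MeasureTheory
open scoped ComplexOrder ContDiff ComplexConjugate Manifold

noncomputable section

variable {m : ℕ}

theorem wirt_hol' {f : (Fin m → ℂ) → ℂ} {z : Fin m → ℂ} (h : DifferentiableAt ℂ f z) (k : Fin m) :
    wirt (-I) k f z = fderiv ℂ f z (Pi.single k 1) := by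
  have : (Pi.single k I : Fin m → ℂ) = I • (Pi.single k 1 : Fin m → ℂ) := by
    rw [← Pi.single_smul, smul_eq_mul, mul_one]
  rw [wirt, h.fderiv_restrictScalars ℝ, this]
  simp [← mul_assoc]

theorem dens_cont {R : Type} [CommRing R] [Algebra ℂ R] {x : Fin m → Fin m → R} (hx : Good x)
    {U : Set (Fin m → ℂ)} {Θ : (Fin m → ℂ) → Fin m → Fin m → Matrix (Fin m) (Fin m) ℂ}
    (h : ∀ k l a b, ContinuousOn (fun z => Θ z k l a b) U) {P : MvPolynomial (Fin m × Fin m) ℂ}
    (hP : P.IsHomogeneous m) :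
    ContinuousOn (fun z => Classical.epsilon fun d : ℂ => ev (mform x (Θ z)) P = d • vol x) U := by
  obtain ⟨T, hT⟩ := Module.Projective.exists_dual_eq_one ℂ (vol_ne hx)
  have e : ∀ z, (Classical.epsilon fun d : ℂ => ev (mform x (Θ z)) P = d • vol x) =
      T (ev (mform x (Θ z)) P) := fun z =>
    eps_eq hx (aeval_top hx (fun a : Fin m × Fin m => Matrix.of fun k l => Θ z k l a.1 a.2) hP hT)
  simp only [e]
  refine Submodule.span_induction (p := fun P _ =>
    ContinuousOn (fun z => T (ev (mform x (Θ z)) P)) U) ?_ (by simpa using continuousOn_const)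
    (fun _ _ _ _ h h' => by simpa using h.fun_add h') (fun c _ _ h => ?_) (mem_span_lin hP)
  · rintro _ ⟨g, rfl⟩
    obtain ⟨N, -, hN⟩ := form_pow (m := m)
    have : ∀ z, T (ev (mform x (Θ z)) (lin g ^ m)) = (N * (∑ a : Fin m × Fin m, (g a : ℂ) •
        Matrix.of fun k l => Θ z k l a.1 a.2).det) * T (∏ k, x k k) := fun z => by
      rw [map_pow, ← smul_eq_mul, ← map_smul, ← hN hx, ← aeval_lin]; rfl
    simp only [this, det_apply', Matrix.sum_apply, Matrix.smul_apply, of_apply]
    fun_prop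
  · simp only [map_smul]
    exact h.const_smul c

/-- Pointwise domination. -/
def Dom (P Q : MvPolynomial (Fin m × Fin m) ℂ) (C : ℝ) : Prop :=
  ∀ {R : Type} [CommRing R] [Algebra ℂ R] {x : Fin m → Fin m → R}, Good x → ∀ H S Θ, Curv H S Θ →
    ‖Classical.epsilon fun d : ℂ => ev (mform x Θ) P = d • vol x‖ ≤ C *
      (Classical.epsilon fun d : ℂ => ev (mform x Θ) Q = d • vol x).re

theorem cwDens_eq {R : Type} [CommRing R] [Algebra ℂ R] (x : Fin m → Fin m → R)
    (H : (Fin m → ℂ) → Matrix (Fin m) (Fin m) ℂ) (P : MvPolynomial (Fin m × Fin m) ℂ) :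
    cwDens x H P = fun z => Classical.epsilon fun d : ℂ =>
      ev (mform x fun k l => -mw I l (conn H k) z) P = d • vol x := rfl

theorem ext_local {W : Type} [AddCommGroup W] [Module ℂ W] {a b : Fin m → W} (hx : Good (xw a b))
    {P Q : MvPolynomial (Fin m × Fin m) ℂ} {C : ℝ} (hQ : Q.IsHomogeneous m) (hC : Dom P Q C)
    {U : Set (Fin m → ℂ)} {H S : (Fin m → ℂ) → Matrix (Fin m) (Fin m) ℂ} (h : LocalHK U H S)
    (hU : IsOpen U) (hH : ∀ w ∈ U, (H w).PosDef ∧ (S w).det ≠ 0) :
    ContinuousOn (extDens a b H Q) U ∧ ∀ z ∈ U, ‖extDens a b H P z‖ ≤ C * (extDens a b H Q z).re := by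
  have e : ∀ P, extDens a b H P = cwDens (xw a b) H P := fun P => rfl
  simp only [e, cwDens_eq]
  exact ⟨dens_cont hx (fun k l a b => (wirt_smooth hU (conn_smooth hU h.smooth
    (fun w hw => (hH w hw).1.det_pos.ne') k a b)).continuousOn.neg) hQ,
    fun z hz => hC hx _ _ _ (h.curv hU (fun w hw => (hH w hw).1) hz (hH z hz).2)⟩

variable {M : Type*} [TopologicalSpace M] [ChartedSpace (Fin m → ℂ) M]
  [IsManifold 𝓘(ℂ, Fin m → ℂ) ω M]

theorem jac_det (p : M) {z : Fin m → ℂ} (hz : z ∈ (chartAt (Fin m → ℂ) p).target) :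
    (jac p z).det ≠ 0 := by
  have h1 := (mdifferentiable_chart (I := 𝓘(ℂ, Fin m → ℂ)) p).symm
  have h2 := h1.mfderiv_injective hz
  have h3 := h1.mdifferentiableAt hz
  rw [h3.mfderiv] at h2
  have h4 := ((mdifferentiableAt_iff _ _).1 h3).2
  simp only [writtenInExtChartAt, mfld_simps, fderivWithin_univ, differentiableWithinAt_univ]
    at h2 h4
  intro h
  obtain ⟨v, hv, h5⟩ := exists_mulVec_eq_zero_iff.2 h
  refine hv (h2 ((map_zero _).trans (h5.symm.trans (funext fun a => ?_))).symm)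
  change _ = fderiv ℂ (chartAt (Fin m → ℂ) ((chartAt (Fin m → ℂ) p).symm z) ∘
    (chartAt (Fin m → ℂ) p).symm) z v a
  have h6 := fun i => (wirt_hol' (differentiableAt_pi.1 h4 a) i).trans
    (DFunLike.congr_fun (fderiv_apply h4 a) _)
  simp only [Function.comp_apply] at h6
  conv_rhs => rw [pi_eq_sum_univ' v]
  simp [mulVec, dotProduct, jac, h6, mul_comm]

theorem IsHKMetric.curv {h σ : M → Matrix (Fin m) (Fin m) ℂ} (g : IsHKMetric h σ) (p : M)
    {z : Fin m → ℂ} (hz : z ∈ (chartAt (Fin m → ℂ) p).target) : (metricIn h p z).PosDef ∧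
    (formIn σ p z).det ≠ 0 := by
  refine ⟨?_, by simp [formIn, jac_det p hz, g.nondegenerate]⟩
  have : Function.Injective (jac p z)ᵀ.vecMul := by
    rw [vecMul_injective_iff_isUnit, isUnit_iff_isUnit_det, det_transpose]
    exact (jac_det p hz).isUnit
  exact (g.posDef _).mul_mul_conjTranspose_same this

theorem global_bound [T2Space M] [CompactSpace M] {P Q : MvPolynomial (Fin m × Fin m) ℂ} {C : ℝ}
    (hQ : Q.IsHomogeneous m) (hC : Dom P Q C)
    {h σ : M → Matrix (Fin m) (Fin m) ℂ} (g : IsHKMetric h σ) (ρ : PartitionOfUnity M M Set.univ)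
    (hρ : ρ.IsSubordinate fun p => (chartAt (Fin m → ℂ) p).source) :
    |charNumber h ρ P| ≤ C * charNumber h ρ Q := by
  have hs := ρ.locallyFinite.finite_nonempty_of_compact
  have e : ∀ P, charNumber h ρ P = ∑ p ∈ hs.toFinset, ∫ z in (chartAt (Fin m → ℂ) p).target,
      ρ p ((chartAt (Fin m → ℂ) p).symm z) * (extDens dz dzb (metricIn h p) P z).re := fun P => by
    refine finsum_eq_sum_of_support_subset_of_finite _ (fun p hp => ?_) hs
    by_contra h0
    simp only [Set.mem_ofPred_eq, Set.not_nonempty_iff_eq_empty, Function.support_eq_empty_iff] at h0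
    simp [h0] at hp
  rw [e, e, mul_sum]
  refine (abs_sum_le_sum_abs _ _).trans (sum_le_sum fun p _ => ?_)
  set φ := chartAt (Fin m → ℂ) p
  obtain ⟨h2, h1⟩ := ext_local good_dz hQ hC (g.charts p) φ.open_target fun w => g.curv p
  have h3 : IsCompact (φ '' tsupport (ρ p)) := (isClosed_tsupport _).isCompact.image_of_continuousOn
    (φ.continuousOn.mono (hρ p))
  have h4 : φ '' tsupport (ρ p) ⊆ φ.target := by
    rintro _ ⟨y, hy, rfl⟩; exact φ.map_source (hρ p hy)
  have h5 : IntegrableOn (fun z => ρ p (φ.symm z) * (extDens dz dzb (metricIn h p) Q z).re)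
      φ.target := by
    refine IntegrableOn.of_forall_sdiff_eq_zero (ContinuousOn.integrableOn_compact h3
      (ContinuousOn.mono ?_ h4)) φ.open_target.measurableSet fun z hz => ?_
    · exact ((ρ p).continuous.comp_continuousOn φ.continuousOn_symm).mul
        (continuous_re.comp_continuousOn h2)
    · rw [image_eq_zero_of_notMem_tsupport fun h => hz.2 ⟨_, h, φ.right_inv hz.1⟩, zero_mul]
  rw [← integral_const_mul, ← Real.norm_eq_abs]
  refine norm_integral_le_of_norm_le (h5.const_mul C)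
    (ae_restrict_of_forall_mem φ.open_target.measurableSet fun z hz => ?_)
  rw [norm_mul, Real.norm_of_nonneg (ρ.nonneg _ _), mul_left_comm]
  exact mul_le_mul_of_nonneg_left ((abs_re_le_norm _).trans (h1 z hz)) (ρ.nonneg _ _)

end

end Pool.Agent.MP_12a176_ag
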