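import Pool.Agent.MP_12a176_ag.Gauss
import Pool.Agent.MP_12a176_ag.Cone

/- The cone of moment series. -/

set_option autoImplicit false

namespace Pool.Agent.MP_12a176_ag

open Finset Complex MeasureTheory PowerSeries
open scoped ComplexOrder

noncomputable section

variable {ι : Type} [Fintype ι] {m : ℕ}

/-- Series with polynomial coefficients. -/
abbrev PS (ι : Type) : Type := (MvPolynomial ι ℂ)⟦X⟧

/-- The exponential series of a polynomial. -/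
def Ex (l : MvPolynomial ι ℂ) : PS ι := rescale l (exp _)

omit [Fintype ι] in
theorem coeff_Ex (l : MvPolynomial ι ℂ) (k : ℕ) :
    coeff k (Ex l) = (k.factorial : ℂ)⁻¹ • l ^ k := by
  rw [Ex, coeff_rescale, coeff_exp, mul_comm, ← Algebra.smul_def, ← algebraMap_smul ℂ]
  simp

theorem lin_add (g g' : ι → ℝ) : lin (g + g') = lin g + lin g' := by
  simp only [lin, Pi.add_apply, ofReal_add, add_smul, sum_add_distrib]

theorem Ex_mul (g g' : ι → ℝ) : Ex (lin g) * Ex (lin g') = Ex (lin (g + g')) := by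
  rw [lin_add]; exact exp_mul_exp_eq_exp_add _ _

/-- Functionals that only see degrees up to `m`. -/
def Fn (m : ℕ) (Ψ : PS ι →ₗ[ℂ] ℂ) : Prop := ∀ y, Ψ (X ^ (m + 1) * y) = 0

omit [Fintype ι] in
theorem Fn.sum {Ψ : PS ι →ₗ[ℂ] ℂ} (h : Fn m Ψ) (y : PS ι) :
    Ψ y = ∑ k ∈ range (m + 1), Ψ (monomial k (coeff k y)) := by
  obtain ⟨z, hz⟩ : X ^ (m + 1) ∣ y - ∑ k ∈ range (m + 1), monomial k (coeff k y) :=
    X_pow_dvd_iff.2 fun j hj => by simp [coeff_monomial, hj]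
  rw [← map_sum, ← sub_eq_zero, ← map_sub, hz, h]

/-- The cone. -/
def Kc (m : ℕ) (y : PS ι) : Prop :=
  ∀ Ψ : PS ι →ₗ[ℂ] ℂ, Fn m Ψ → (∀ g, 0 ≤ Ψ (Ex (lin g))) → 0 ≤ Ψ y

theorem Kc.mul {y z : PS ι} (hy : Kc m y) (hz : Kc m z) : Kc m (y * z) := fun Ψ h1 h2 =>
  hz (Ψ ∘ₗ LinearMap.mulLeft ℂ y) (fun u => by simpa [mul_left_comm] using h1 (y * u)) fun g =>
    hy (Ψ ∘ₗ LinearMap.mulRight ℂ (Ex (lin g))) (fun u => by simpa [mul_assoc] using h1 _)
      fun g' => by simpa [Ex_mul] using h2 _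

theorem Kc.one : Kc m (1 : PS ι) := fun Ψ _ h => by simpa [lin, Ex] using h 0

theorem Kc.prod {α : Type} {s : Finset α} {y : α → PS ι} (h : ∀ a ∈ s, Kc m (y a)) :
    Kc m (∏ a ∈ s, y a) := prod_induction _ _ (fun _ _ => Kc.mul) Kc.one h

/-- The span of the elements of the cone that are dominated by `F`. -/
def Wc (m : ℕ) (F : PS ι) : Submodule ℂ (PS ι) :=
  Submodule.span ℂ {P | Kc m P ∧ ∃ C : ℝ, 0 ≤ C ∧ Kc m ((C : ℂ) • F - P)}

theorem Wc_mul {F F' P P' : PS ι} (hF : Kc m F') (h : P ∈ Wc m F) (h' : P' ∈ Wc m F') :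
    P * P' ∈ Wc m (F * F') := by
  have h0 := Submodule.mul_mem_mul h h'
  rw [Wc, Wc, Submodule.span_mul_span] at h0
  refine Submodule.span_le.2 ?_ h0
  rintro _ ⟨P, ⟨h1, C, h2, h3⟩, P', ⟨h1', C', h2', h3'⟩, rfl⟩
  refine Submodule.subset_span ⟨h1.mul h1', C * C', by positivity, fun Ψ a b => ?_⟩
  have : ((C * C' : ℝ) : ℂ) • (F * F') - P * P' =
      (C' : ℂ) • (((C : ℂ) • F - P) * F') + P * ((C' : ℂ) • F' - P') := by
    simp only [sub_mul, mul_sub, smul_sub, smul_mul_assoc, mul_smul_comm, smul_smul, ofReal_mul,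
      mul_comm (C' : ℂ)]
    abel
  rw [this, map_add, map_smul]
  exact add_nonneg (mul_nonneg (by exact_mod_cast h2') (h3.mul hF Ψ a b)) (h1.mul h3' Ψ a b)

theorem Wc_prod {α : Type} {s : Finset α} {F P : α → PS ι} (hF : ∀ a ∈ s, Kc m (F a))
    (h : ∀ a ∈ s, P a ∈ Wc m (F a)) : ∏ a ∈ s, P a ∈ Wc m (∏ a ∈ s, F a) := by
  induction s using Finset.cons_induction with
  | empty => exact Submodule.subset_span ⟨by simpa using Kc.one, 1, zero_le_one, fun Ψ _ _ => by simp⟩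
  | cons a s ha ih =>
    rw [prod_cons, prod_cons]
    exact Wc_mul (Kc.prod fun b hb => hF b (mem_cons_of_mem hb)) (h a (mem_cons_self _ _))
      (ih (fun b hb => hF b (mem_cons_of_mem hb)) fun b hb => h b (mem_cons_of_mem hb))

theorem Wc_bound {F P : PS ι} (h : P ∈ Wc m F) : ∃ C : ℝ, 0 ≤ C ∧ ∀ Ψ : PS ι →ₗ[ℂ] ℂ, Fn m Ψ →
    (∀ g, 0 ≤ Ψ (Ex (lin g))) → ‖Ψ P‖ ≤ C * (Ψ F).re := by
  induction h using Submodule.span_induction with
  | mem P h =>
    obtain ⟨h1, C, h2, h3⟩ := h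
    refine ⟨C, h2, fun Ψ a b => ?_⟩
    have := (Complex.nonneg_iff.1 (h3 Ψ a b)).1
    rw [map_sub, map_smul, smul_eq_mul, sub_re, re_ofReal_mul] at this
    rw [← re_eq_norm.2 (h1 Ψ a b)]
    linarith
  | zero => exact ⟨0, le_rfl, by simp⟩
  | add P Q _ _ h h' =>
    obtain ⟨C, h0, h⟩ := h
    obtain ⟨C', h0', h'⟩ := h'
    exact ⟨C + C', by positivity, fun Ψ a b => by
      rw [map_add, add_mul]; exact (norm_add_le _ _).trans (add_le_add (h Ψ a b) (h' Ψ a b))⟩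
  | smul c P _ h =>
    obtain ⟨C, h0, h⟩ := h
    exact ⟨‖c‖ * C, by positivity, fun Ψ a b => by
      rw [map_smul, norm_smul, mul_assoc]
      exact mul_le_mul_of_nonneg_left (h Ψ a b) (norm_nonneg _)⟩

theorem mem_Wc {F P : PS ι} (h : ∀ Ψ : PS ι →ₗ[ℂ] ℂ, Fn m Ψ → (∀ w ∈ Wc m F, Ψ w = 0) → Ψ P = 0) :
    P ∈ Wc m F := by
  by_contra hP
  obtain ⟨Ψ, h1, h2⟩ := (Wc m F).exists_dual_map_eq_bot_of_notMem hP inferInstance
  have h3 : ∀ w ∈ Wc m F, Ψ w = 0 := fun w hw => (Submodule.eq_bot_iff _).1 h2 _ ⟨w, hw, rfl⟩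
  exact h1 (h Ψ (fun y => h3 _ (Submodule.subset_span ⟨fun Φ a _ => (a y).ge, 0, le_rfl,
    fun Φ a _ => by simp [a y]⟩)) h3)

/-- Polynomials seen through a functional, in degree `k`. -/
def inDeg (Ψ : PS ι →ₗ[ℂ] ℂ) (k : ℕ) : MvPolynomial ι ℂ →ₗ[ℂ] ℂ :=
  Ψ ∘ₗ (monomial k).restrictScalars ℂ

theorem monomial_mem_Wc [DecidableEq ι] {F : PS ι} (h : ∀ g, Ex (lin g) ∈ Wc m F)
    {p : MvPolynomial ι ℂ} (hp : p.IsHomogeneous m) : monomial m p ∈ Wc m F := by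
  refine mem_Wc fun Ψ h1 h2 => polar hp (inDeg Ψ m) fun g => ?_
  let q : Polynomial ℂ := ∑ k ∈ range (m + 1),
    Polynomial.monomial k ((k.factorial : ℂ)⁻¹ * inDeg Ψ k (lin g ^ k))
  have : q = 0 := by
    refine Polynomial.eq_zero_of_infinite_isRoot _
      ((Set.infinite_range_of_injective ofReal_injective).mono ?_)
    rintro _ ⟨s, rfl⟩
    have e : lin (s • g) = (s : ℂ) • lin g := by
      simp only [lin, smul_sum, smul_smul, Pi.smul_apply, smul_eq_mul, ofReal_mul]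
    refine Eq.trans ?_ (h2 _ (h (s • g)))
    rw [h1.sum, Polynomial.eval_finsetSum]
    refine sum_congr rfl fun k _ => ?_
    change _ = inDeg Ψ k _
    rw [coeff_Ex, e, smul_pow, map_smul, map_smul]
    simp only [Polynomial.eval_monomial, smul_eq_mul]
    ring
  have := congrArg (Polynomial.coeff · m) this
  simpa [q, Polynomial.coeff_monomial, m.factorial_ne_zero] using this

section average

variable {d : ℕ} {G : (Fin d → ℂ) → ι → ℝ} {B : ℝ}

/-- Gaussian averages of exponential series. -/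
def gavg (G : (Fin d → ℂ) → ι → ℝ) (s : Set (Fin d → ℂ)) : PS ι :=
  PowerSeries.mk fun k => (k.factorial : ℂ)⁻¹ • ∑ j : Fin k → ι,
    (∫ a in s, gw a • ∏ i, (G a (j i) : ℂ)) • ∏ i, MvPolynomial.X (j i)

theorem gavg_coeff (hG : Continuous G) (hB : ∀ a i, |G a i| ≤ B * sq2 a)
    (Λ : MvPolynomial ι ℂ →ₗ[ℂ] ℂ) (k : ℕ) :
    Integrable (fun a => gw a • Λ (lin (G a) ^ k)) ∧ ∀ s, Λ (coeff k (gavg G s)) =
      (k.factorial : ℂ)⁻¹ * ∫ a in s, gw a • Λ (lin (G a) ^ k) := by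
  have h : ∀ j : Fin k → ι, Integrable fun a => gw a • ∏ i, (G a (j i) : ℂ) := fun j =>
    gw_int (C := B ^ k) (k := k) (by fun_prop) fun a => by
      rw [norm_prod, ← mul_pow, ← Fin.prod_const]
      exact prod_le_prod (fun _ _ => norm_nonneg _) fun i _ => by simpa using hB a (j i)
  simp only [lin_pow, smul_sum, ← smul_mul_assoc]
  refine ⟨integrable_finsetSum _ fun j _ => (h j).mul_const _, fun s => ?_⟩
  rw [integral_finsetSum _ fun j _ => ((h j).mul_const _).integrableOn]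
  simp only [gavg, coeff_mk, map_smul, map_sum, smul_eq_mul, integral_mul_const]

theorem gavg_apply (hG : Continuous G) (hB : ∀ a i, |G a i| ≤ B * sq2 a) {Ψ : PS ι →ₗ[ℂ] ℂ}
    (h : Fn m Ψ) : Continuous (fun a => gw a • Ψ (Ex (lin (G a)))) ∧
    Integrable (fun a => gw a • Ψ (Ex (lin (G a)))) ∧
      ∀ s, Ψ (gavg G s) = ∫ a in s, gw a • Ψ (Ex (lin (G a))) := by
  have e : ∀ a, gw a • Ψ (Ex (lin (G a))) = ∑ k ∈ range (m + 1),
      (k.factorial : ℂ)⁻¹ * (gw a • inDeg Ψ k (lin (G a) ^ k)) := fun a => by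
    rw [h.sum, smul_sum]
    refine sum_congr rfl fun k _ => ?_
    change gw a • inDeg Ψ k _ = _
    rw [coeff_Ex, map_smul, smul_eq_mul, mul_smul_comm]
  have h1 := fun k => (gavg_coeff hG hB (inDeg Ψ k) k).1.const_mul (k.factorial : ℂ)⁻¹
  simp only [e]
  refine ⟨?_, integrable_finsetSum _ fun k _ => h1 k, fun s => ?_⟩
  · have := gw_cont (m := d)
    simp only [lin_pow]
    fun_prop
  · rw [integral_finsetSum _ fun k _ => (h1 k).integrableOn, h.sum]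
    refine sum_congr rfl fun k _ => ?_
    rw [integral_const_mul]
    exact (gavg_coeff hG hB (inDeg Ψ k) k).2 s

theorem gavg_Kc (hG : Continuous G) (hB : ∀ a i, |G a i| ≤ B * sq2 a) (s : Set (Fin d → ℂ)) :
    Kc m (gavg G s) := fun Ψ h1 h2 => by
  rw [(gavg_apply hG hB h1).2.2]
  exact integral_nonneg fun a => smul_nonneg (gw_pos a).le (h2 _)

theorem Ex_mem_Wc (hG : Continuous G) (hB : ∀ a i, |G a i| ≤ B * sq2 a) (a : Fin d → ℂ) :
    Ex (lin (G a)) ∈ Wc m (gavg G Set.univ) := by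
  refine mem_Wc fun Ψ h1 h2 => ?_
  obtain ⟨h3, h4, h5⟩ := gavg_apply hG hB h1
  have := (h3.ae_eq_iff_eq volume continuous_zero).1
    (h4.ae_eq_zero_of_forall_setIntegral_eq_zero fun s hs _ => ?_)
  · exact (smul_eq_zero.1 (congrFun this a)).resolve_left (gw_pos a).ne'
  rw [← h5]
  refine h2 _ (Submodule.subset_span ⟨gavg_Kc hG hB s, 1, zero_le_one, fun Φ a b => ?_⟩)
  obtain ⟨-, h6, h7⟩ := gavg_apply hG hB a
  rw [ofReal_one, one_smul, map_sub, h7, h7, Measure.restrict_univ, ← integral_add_compl hs h6,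
    add_sub_cancel_left, ← h7]
  exact gavg_Kc hG hB _ Φ a b

end average

theorem Wc_final {F : PS ι} {p : MvPolynomial ι ℂ} (hF : Kc m F) (h : monomial m p ∈ Wc m F) :
    ∃ C : ℝ, 0 ≤ C ∧ ∀ Λ : MvPolynomial ι ℂ →ₗ[ℂ] ℂ, (∀ g, 0 ≤ Λ (lin g ^ m)) → ∀ Q : PS ι,
      Kc m Q → constantCoeff Q = 1 → ‖Λ p‖ ≤ C * (Λ (coeff m (F * Q))).re := by
  obtain ⟨C, h0, hC⟩ := Wc_bound h
  refine ⟨C, h0, fun Λ hΛ Q hQ h1 => ?_⟩
  let Ψ : PS ι →ₗ[ℂ] ℂ := Λ ∘ₗ (coeff m).restrictScalars ℂ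
  have a1 : ∀ y, Fn m (Ψ ∘ₗ LinearMap.mulRight ℂ y) := fun y u => by
    simp [Ψ, mul_assoc, coeff_X_pow_mul']
  have a2 : ∀ g g', 0 ≤ (Ψ ∘ₗ LinearMap.mulRight ℂ (Ex (lin g))) (Ex (lin g')) := fun g g' => by
    simp only [Ψ, LinearMap.comp_apply, LinearMap.mulRight_apply, Ex_mul,
      LinearMap.restrictScalars_apply, coeff_Ex, map_smul]
    exact mul_nonneg (by positivity) (hΛ _)
  have := hQ ((C : ℂ) • Ψ ∘ₗ LinearMap.mulRight ℂ F - (‖Λ p‖ : ℂ) •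
    MvPolynomial.lcoeff ℂ 0 ∘ₗ (coeff 0).restrictScalars ℂ) (fun u => ?_) fun g => ?_
  · simpa [Ψ, h1, mul_comm Q] using (Complex.nonneg_iff.1 this).1
  · rw [LinearMap.sub_apply, LinearMap.smul_apply, a1]
    simp
  · have b1 := hC _ (a1 _) (a2 g)
    have b2 := hF _ (a1 _) (a2 g)
    have b3 : coeff m (monomial m p * Ex (lin g)) = p := by
      rw [monomial_eq_C_mul_X_pow, mul_assoc, coeff_C_mul, coeff_X_pow_mul']
      simp [coeff_Ex]
    simp only [Ψ, LinearMap.comp_apply, LinearMap.mulRight_apply, LinearMap.restrictScalars_apply,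
      b3, LinearMap.sub_apply, LinearMap.smul_apply, mul_comm (Ex _), coeff_Ex] at b1 b2 ⊢
    rw [Complex.nonneg_iff] at b2 ⊢
    simp [b1, ← b2.2]

end

end Pool.Agent.MP_12a176_ag
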