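import Pool.Agent.MP_12a176_ag.Chern
import Pool.Agent.MP_12a176_ag.Forms
import Pool.Agent.MP_12a176_ag.Cone

/- The pointwise inequality for curvature tensors of hyper-Kaehler type. -/

set_option autoImplicit false

namespace Pool.Agent.MP_12a176_ag

open Complex Finset Matrix MvPolynomial
open scoped ComplexOrder MatrixOrder

noncomputable section

variable {m n : ℕ} {R : Type} [CommRing R] [Algebra ℂ R]

/-- The symmetries of the curvature coefficients. -/
structure Curv (H S : Matrix (Fin m) (Fin m) ℂ) (Θ : Fin m → Fin m → Matrix (Fin m) (Fin m) ℂ) :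
    Prop where
  pos : H.PosDef
  det : S.det ≠ 0
  herm : ∀ k l, (Θ k l * H)ᴴ = Θ l k * H
  symm : ∀ k l i a, Θ k l i a = Θ i l k a
  sp : ∀ k l, Θ k l * S + S * (Θ k l)ᵀ = 0

variable {H S : Matrix (Fin m) (Fin m) ℂ} {Θ : Fin m → Fin m → Matrix (Fin m) (Fin m) ℂ}

theorem Curv.pair (h : Curv H S Θ) (k l i j : Fin m) : (Θ k l * H) i j = (Θ i j * H) k l := by
  have h1 : ∀ k l i j, (Θ k l * H) i j = (Θ i l * H) k j := fun k l i j => by
    simp only [Matrix.mul_apply, h.symm k l i]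
  rw [h1, ← h.herm, conjTranspose_apply, h1, ← conjTranspose_apply, h.herm]

theorem Curv.det_nonneg (h : Curv H S Θ) {ζ : Matrix (Fin m) (Fin m) ℂ} (hζ : ζᴴ = -ζ) :
    0 ≤ (Matrix.of fun k l => (ζ * (Θ k l * H)).trace).det := by
  have e : (Matrix.of fun k l => (ζ * (Θ k l * H)).trace) = (∑ j, ∑ i, ζ j i • Θ i j) * H := by
    ext k l
    simp only [Matrix.sum_mul, Matrix.smul_mul, Matrix.sum_apply, Matrix.smul_apply, ← h.pair k l,
      of_apply, trace, Matrix.diag, Matrix.mul_apply (M := ζ), smul_eq_mul]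
  rw [e]
  refine Pool.Agent.MP_12a176_ag.det_nonneg h.pos ?_ h.det ?_
  · rw [← e]
    ext k l
    rw [conjTranspose_apply, of_apply, ← trace_conjTranspose, conjTranspose_mul, h.herm, hζ,
      Matrix.mul_neg, trace_neg, trace_mul_comm]
    rfl
  · simp only [Matrix.sum_mul, Matrix.mul_sum, transpose_sum, transpose_smul, Matrix.smul_mul,
      Matrix.mul_smul, ← sum_add_distrib, ← smul_add, h.sp, smul_zero, sum_const_zero]

theorem Curv.trace (h : Curv H S Θ) (k l : Fin m) : (Θ k l).trace = 0 := by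
  have h1 := congrArg (fun A => (A * S⁻¹).trace) (h.sp k l)
  have h2 : IsUnit S.det := h.det.isUnit
  simp only [Matrix.add_mul, trace_add, mul_nonsing_inv_cancel_right _ _ h2, Matrix.zero_mul,
    trace_zero] at h1
  rw [trace_mul_comm, nonsing_inv_mul_cancel_left _ _ h2, trace_transpose] at h1
  linear_combination h1 / 2

/-- `form` as a linear map. -/
def formL (x : Fin m → Fin m → R) : Matrix (Fin m) (Fin m) ℂ →ₗ[ℂ] R where
  toFun := form x
  map_add' a b := by simp [form, add_smul, sum_add_distrib]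
  map_smul' c a := by simp [form, smul_sum, smul_smul]

/-- A matrix of (1,1)-forms. -/
def mform (x : Fin m → Fin m → R) (Θ : Fin m → Fin m → Matrix (Fin m) (Fin m) ℂ) :
    Matrix (Fin m) (Fin m) R := Matrix.of fun a b => formL x (Matrix.of fun k l => Θ k l a b)

/-- A universal matrix. -/
def uni (m : ℕ) : Matrix (Fin m) (Fin m) (MvPolynomial (Fin m × Fin m) ℂ) :=
  Matrix.of fun a b => ((1 + I) / 2) • X (a, b) + ((I - 1) / 2) • X (b, a)

theorem uni_homog {P : MvPolynomial (Fin m × Fin m) ℂ} {k : ℕ} (h : P.IsHomogeneous k) :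
    (ev (uni m) P).IsHomogeneous k := by
  have := h.aeval (n := 1) (fun a => uni m a.1 a.2) fun a => by
    simp only [uni, of_apply, ← C_mul']
    exact ((isHomogeneous_X _ _).C_mul _).add ((isHomogeneous_X _ _).C_mul _)
  rwa [one_mul] at this

theorem uni_sq : (uni m * uni m).trace = -∑ a, X a ^ 2 := by
  have : ∀ a b, uni m a b * uni m b a = (-1 / 2 : ℂ) • (X (a, b) ^ 2 + X (b, a) ^ 2) := by
    intro a b
    simp only [uni, of_apply, add_mul, mul_add, smul_mul_smul_comm, ← sq,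
      mul_comm (X (b, a) : MvPolynomial _ ℂ) (X (a, b))]
    match_scalars <;> (ring_nf; try simp only [I_sq]; ring)
  simp only [trace, Matrix.diag, Matrix.mul_apply, this, ← smul_sum, sum_add_distrib,
    Fintype.sum_prod_type]
  rw [sum_comm (f := fun a b => (X (b, a) : MvPolynomial _ ℂ) ^ 2)]
  module

theorem aeval_lin {ι : Type} [Fintype ι] (x : Fin m → Fin m → R)
    (ρ : ι → Matrix (Fin m) (Fin m) ℂ) (g : ι → ℝ) :
    aeval (fun a => formL x (ρ a)) (lin g) = form x (∑ a, (g a : ℂ) • ρ a) := by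
  change _ = formL x _
  simp only [lin, map_sum, map_smul, aeval_X]

theorem aeval_top {ι : Type} [Fintype ι] [DecidableEq ι] {x : Fin m → Fin m → R} (hx : Good x)
    (ρ : ι → Matrix (Fin m) (Fin m) ℂ) {P : MvPolynomial ι ℂ} (hP : P.IsHomogeneous m)
    {T : R →ₗ[ℂ] ℂ} (hT : T (vol x) = 1) :
    aeval (fun a => formL x (ρ a)) P = T (aeval (fun a => formL x (ρ a)) P) • vol x := by
  have : aeval (fun a => formL x (ρ a)) P ∈ ℂ ∙ vol x := by
    refine Submodule.span_induction ?_ (by simp) (fun _ _ _ _ h h' => ?_) (fun _ _ _ h => ?_)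
      (mem_span_lin hP)
    · rintro _ ⟨g, rfl⟩
      obtain ⟨N, -, hN⟩ := form_pow (m := m)
      rw [map_pow, aeval_lin, hN hx, Submodule.mem_span_singleton]
      refine ⟨(N * (∑ a, (g a : ℂ) • ρ a).det) * ((I / 2) ^ m)⁻¹, ?_⟩
      rw [vol_eq, smul_smul, mul_assoc, inv_mul_cancel₀ (pow_ne_zero _ (by simp)), mul_one]
    · rw [map_add]; exact add_mem h h'
    · rw [map_smul]; exact Submodule.smul_mem _ _ h
  obtain ⟨d, hd⟩ := Submodule.mem_span_singleton.1 this
  rw [← hd, map_smul, hT, smul_eq_mul, mul_one]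

theorem Curv.exists_fun {x : Fin (2 * n) → Fin (2 * n) → R} (hx : Good x)
    {H S : Matrix (Fin (2 * n)) (Fin (2 * n)) ℂ} {Θ : Fin (2 * n) → Fin (2 * n) → Matrix _ _ ℂ}
    (h : Curv H S Θ) : ∃ (φ : MvPolynomial (Fin (2 * n) × Fin (2 * n)) ℂ →ₐ[ℂ] R)
      (Λ : MvPolynomial (Fin (2 * n) × Fin (2 * n)) ℂ →ₗ[ℂ] ℂ), (∀ g, 0 ≤ Λ (lin g ^ (2 * n))) ∧
      ((uni _).map φ).trace = 0 ∧ (∀ P, Inv P → ev (mform x Θ) P = φ (ev (uni _) P)) ∧
      ∀ P : MvPolynomial _ ℂ, P.IsHomogeneous (2 * n) → φ P = ((-1) ^ n * Λ P) • vol x := by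
  obtain ⟨g, hg⟩ := CStarAlgebra.nonneg_iff_eq_mul_star_self.mp h.pos.posSemidef.nonneg
  have hu : IsUnit g.det := by
    have := h.pos.det_pos.ne'
    rw [hg, det_mul] at this
    exact (left_ne_zero_of_mul this).isUnit
  have e1 : ∀ k l, g⁻¹ * Θ k l * g = g⁻¹ * (Θ k l * H) * g⁻¹ᴴ := fun k l => by
    rw [hg, star_eq_conjTranspose, Matrix.mul_assoc _ (_ * _), Matrix.mul_assoc (Θ k l),
      Matrix.mul_assoc g, ← conjTranspose_mul, nonsing_inv_mul _ hu, conjTranspose_one,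
      Matrix.mul_one, Matrix.mul_assoc]
  let ρ : Fin (2 * n) × Fin (2 * n) → Matrix (Fin (2 * n)) (Fin (2 * n)) ℂ := fun a =>
    ((1 - I) / 2) • Matrix.of (fun k l => (g⁻¹ * Θ k l * g) a.1 a.2) -
      ((1 + I) / 2) • Matrix.of fun k l => (g⁻¹ * Θ k l * g) a.2 a.1
  let φ : MvPolynomial (Fin (2 * n) × Fin (2 * n)) ℂ →ₐ[ℂ] R := aeval fun a => formL x (ρ a)
  have e2 : (uni _).map φ = mform x fun k l => g⁻¹ * Θ k l * g := by
    ext a b
    simp only [uni, mform, φ, ρ, map_apply, of_apply, map_add, map_smul, aeval_X, map_sub]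
    match_scalars <;> (ring_nf; try simp only [I_sq]; ring)
  have e3 : (mform x fun k l => g⁻¹ * Θ k l * g) =
      g⁻¹.map (algebraMap ℂ R) * mform x Θ * g.map (algebraMap ℂ R) := by
    ext a b
    simp only [mform, Matrix.mul_apply, of_apply, map_apply, mul_comm _ (algebraMap ℂ R _),
      ← Algebra.smul_def, ← map_smul, ← map_sum]
    congr 1
    ext k l
    simp [Matrix.sum_apply, mul_comm]
  obtain ⟨T, hT⟩ := Module.Projective.exists_dual_eq_one ℂ (vol_ne hx)
  obtain ⟨N, hN0, hN⟩ := form_pow_vol n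
  have e4 : ∀ z : ℂ, (-1) ^ n * ((-1) ^ n * z) = z := fun z => by
    rw [← mul_assoc, ← mul_pow]; simp
  refine ⟨φ, (-1) ^ n • T ∘ₗ φ.toLinearMap, fun γ => ?_, ?_, fun P hP => ?_, fun P hP => ?_⟩
  · let η : Matrix (Fin (2 * n)) (Fin (2 * n)) ℂ := Matrix.of fun b a =>
      (1 - I) / 2 * γ (a, b) - (1 + I) / 2 * γ (b, a)
    have e5 : ∑ a, (γ a : ℂ) • ρ a =
        Matrix.of fun k l => (g⁻¹ᴴ * η * g⁻¹ * (Θ k l * H)).trace := by
      ext k l
      rw [of_apply, Matrix.mul_assoc _ g⁻¹, Matrix.mul_assoc g⁻¹ᴴ, trace_mul_comm,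
        Matrix.mul_assoc η, ← e1]
      simp only [ρ, η, Matrix.trace, Matrix.diag, Matrix.mul_apply (M := Matrix.of _), of_apply,
        Matrix.sum_apply, Matrix.smul_apply, Matrix.sub_apply, Fintype.sum_prod_type, smul_eq_mul,
        mul_sub, sub_mul, sum_sub_distrib]
      rw [sum_comm]
      simp only [mul_assoc, mul_left_comm (γ _ : ℂ)]
    have e6 : ηᴴ = -η := by
      ext a b
      simp only [η, conjTranspose_apply, of_apply, Matrix.neg_apply, star_def, map_sub, map_mul,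
        map_div₀, map_add, map_one, conj_I, conj_ofReal, map_ofNat]
      ring
    have := h.det_nonneg (ζ := g⁻¹ᴴ * η * g⁻¹) (by simp [e6, Matrix.mul_assoc])
    simp only [LinearMap.smul_apply, LinearMap.comp_apply, AlgHom.toLinearMap_apply, map_pow, φ]
    rw [aeval_lin, hN hx, map_smul, hT, e5, smul_eq_mul, mul_one, mul_assoc]
    simp only [zsmul_eq_mul, Int.cast_pow, Int.cast_neg, Int.cast_one, e4]
    exact mul_nonneg (by exact_mod_cast hN0.le) this
  · rw [e2]
    simp only [mform, Matrix.trace, Matrix.diag, of_apply, ← map_sum]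
    rw [← map_zero (formL x)]
    congr 1
    ext k l
    have := h.trace k l
    rw [← mul_nonsing_inv_cancel_left _ (Θ k l) hu, Matrix.trace_mul_comm] at this
    simpa [Matrix.sum_apply, Matrix.trace] using this
  · rw [ev_ev, e2, e3, hP.conj (mul_nonsing_inv _ hu)]
  · simp only [LinearMap.smul_apply, LinearMap.comp_apply, AlgHom.toLinearMap_apply, zsmul_eq_mul,
      Int.cast_pow, Int.cast_neg, Int.cast_one, e4]
    exact aeval_top hx ρ hP hT

theorem point_bound (hn : 0 < n) {P : MvPolynomial (Fin (2 * n) × Fin (2 * n)) ℂ} (h1 : Inv P)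
    (h2 : P.IsHomogeneous (2 * n)) : ∃ C : ℝ, 0 < C ∧ ∀ {R : Type} [CommRing R] [Algebra ℂ R]
      {x : Fin (2 * n) → Fin (2 * n) → R}, Good x → ∀ H S Θ, Curv H S Θ →
      ‖Classical.epsilon fun d : ℂ => ev (mform x Θ) P = d • vol x‖ ≤ C *
        (Classical.epsilon fun d : ℂ => ev (mform x Θ) (chernPoly _ 2 ^ n) = d • vol x).re := by
  have : Nonempty (Fin (2 * n)) := ⟨⟨0, by omega⟩⟩
  obtain ⟨C, h0, hC⟩ := cone_bound (uni_homog h2)
  refine ⟨C * (8 * Real.pi ^ 2) ^ n, by positivity, fun {R} _ _ {x} hx H S Θ h => ?_⟩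
  obtain ⟨φ, Λ, a1, a2, a3, a4⟩ := h.exists_fun hx
  have hQ : ((∑ a, X a ^ 2) ^ n : MvPolynomial (Fin (2 * n) × Fin (2 * n)) ℂ).IsHomogeneous
      (2 * n) := (IsHomogeneous.sum _ _ _ fun a _ => isHomogeneous_X_pow _ _).pow n
  have e : ev (mform x Θ) (chernPoly _ 2 ^ n) =
      ((((8 * Real.pi ^ 2) ^ n : ℝ)⁻¹ : ℝ) * Λ ((∑ a, X a ^ 2) ^ n)) • vol x := by
    rw [map_pow, a3 _ (chern_inv 2), ev_ev, ev_chern_two _ a2, ← Matrix.map_mul,
      ← AddMonoidHom.map_trace, uni_sq, map_neg, smul_neg, ← neg_smul, smul_pow, ← map_pow,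
      a4 _ hQ, smul_smul, ← mul_assoc, ← mul_pow,
      ← inv_pow]
    simp
  rw [eps_eq hx ((a3 P h1).trans (a4 _ (uni_homog h2))), eps_eq hx e, re_ofReal_mul, mul_assoc,
    mul_inv_cancel_left₀ (by positivity)]
  simpa using hC Λ a1

end

end Pool.Agent.MP_12a176_ag
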