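import Mathlib

/- The product expansion of `(x/2) / sinh (x/2)`, coefficient by coefficient. -/

set_option autoImplicit false

namespace Pool.Agent.MP_12a176_ag

open PowerSeries Finset Filter Topology Complex

noncomputable section

/-- The geometric series. -/
def geo (c : ℂ) : ℂ⟦X⟧ := mk fun p => c ^ p

/-- The inverse roots. -/
def cc (k : ℕ) : ℝ := 1 / (2 * Real.pi * (k + 1))

theorem cc_pos (k : ℕ) : 0 < cc k := by unfold cc; positivity

/-- Finite products. -/
def aN (N : ℕ) : ℂ⟦X⟧ := ∏ k ∈ range N, geo (cc k * I) * geo (-cc k * I)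

/-- The limit. -/
def ahat : ℂ⟦X⟧ := bernoulli'PowerSeries ℂ * rescale (-1 / 2) (exp ℂ)

theorem coeff_XD (f : ℂ⟦X⟧) (p : ℕ) : coeff p (X * d⁄dX ℂ f) = p * coeff p f := by
  cases p with
  | zero => simp
  | succ p => rw [coeff_succ_X_mul, coeff_derivative]; push_cast; ring

theorem geo_ode (c : ℂ) : X * d⁄dX ℂ (geo c) = geo c * (geo c - 1) := by
  ext p
  rw [coeff_XD, mul_sub, mul_one, map_sub, coeff_mul]
  simp only [geo, coeff_mk]
  rw [sum_congr rfl fun q hq => by rw [← pow_add, mem_antidiagonal.1 hq]]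
  simp [add_mul]

theorem aN_ode (N : ℕ) : X * d⁄dX ℂ (aN N) =
    aN N * ∑ k ∈ range N, (geo (cc k * I) + geo (-cc k * I) - 2) := by
  induction N with
  | zero => simp [aN]
  | succ N ih =>
    simp only [aN, prod_range_succ, sum_range_succ, Derivation.leibniz, smul_eq_mul] at ih ⊢
    linear_combination (geo (cc N * I) * geo (-cc N * I)) * ih +
      (∏ k ∈ range N, geo (cc k * I) * geo (-cc k * I)) *
        (geo (-cc N * I) * geo_ode (cc N * I) + geo (cc N * I) * geo_ode (-cc N * I))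

theorem ahat_ode : X * d⁄dX ℂ ahat = ahat * (1 - bernoulliPowerSeries ℂ - C (1 / 2) * X) := by
  have h1 := bernoulliPowerSeries_mul_exp_sub_one ℂ
  have h2 : bernoulli'PowerSeries ℂ = bernoulliPowerSeries ℂ * exp ℂ := by
    refine mul_right_cancel₀ (b := exp ℂ - 1) (fun h => ?_) ?_
    · simpa using congrArg (coeff 1) h
    · rw [bernoulli'PowerSeries_mul_exp_sub_one, mul_right_comm, h1]
  have h3 := congrArg (d⁄dX ℂ) h1
  have h4 : d⁄dX ℂ (rescale (-1 / 2) (exp ℂ)) = -C (1 / 2) * rescale (-1 / 2) (exp ℂ) := by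
    ext p
    rw [coeff_derivative, ← map_neg, coeff_C_mul]
    simp only [coeff_rescale, coeff_exp, Nat.factorial_succ, pow_succ]
    simp
    field_simp
  simp only [ahat, h2, Derivation.leibniz, smul_eq_mul, derivative_exp, h4, map_sub, derivative_X,
    derivative_one] at h3 ⊢
  set b := bernoulliPowerSeries ℂ
  set e := exp ℂ
  set r := rescale (-1 / 2 : ℂ) e
  linear_combination (r * e * b) * h3 - (r * e * d⁄dX ℂ b + r * e * b) * h1

theorem ode_lim {a L : ℕ → ℂ⟦X⟧} {a' L' : ℂ⟦X⟧} (h : ∀ N, X * d⁄dX ℂ (a N) = a N * L N)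
    (h' : X * d⁄dX ℂ a' = a' * L') (h0 : ∀ N, coeff 0 (a N) = coeff 0 a')
    (h1 : ∀ N, coeff 0 (L N) = 0) (h1' : coeff 0 L' = 0)
    (h2 : ∀ p, Tendsto (fun N => coeff p (L N)) atTop (𝓝 (coeff p L'))) (p : ℕ) :
    Tendsto (fun N => coeff p (a N)) atTop (𝓝 (coeff p a')) := by
  induction p using Nat.strong_induction_on with
  | _ p ih =>
    rcases p with _ | p
    · simp only [h0]; exact tendsto_const_nhds
    have e : ∀ a L : ℂ⟦X⟧, X * d⁄dX ℂ a = a * L → coeff 0 L = 0 → coeff (p + 1) a =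
        (∑ q ∈ antidiagonal p, coeff q.1 a * coeff (q.2 + 1) L) / (p + 1 : ℕ) := by
      intro a L h h1
      have := congrArg (coeff (p + 1)) h
      rw [coeff_XD, coeff_mul, Nat.sum_antidiagonal_succ', h1, mul_zero, zero_add] at this
      rw [← this, mul_div_cancel_left₀ _ (Nat.cast_ne_zero.2 p.succ_ne_zero)]
    simp only [e _ _ (h _) (h1 _), e _ _ h' h1']
    exact (tendsto_finsetSum _ fun q hq => (ih _ (by
      have := mem_antidiagonal.1 hq; omega)).mul (h2 _)).div_const _

theorem aN_tendsto (p : ℕ) : Tendsto (fun N => coeff p (aN N)) atTop (𝓝 (coeff p ahat)) := by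
  refine ode_lim aN_ode ahat_ode (fun N => ?_) (fun N => ?_) ?_ (fun p => ?_) p
  · have : constantCoeff (rescale (-1 / 2 : ℂ) (exp ℂ)) = 1 := by
      rw [← coeff_zero_eq_constantCoeff_apply, coeff_rescale]; simp
    simp [aN, ahat, geo, map_prod, bernoulli'PowerSeries, this]
  · simp [geo, mul_two]
  · simp [bernoulliPowerSeries]
  rcases p with _ | p
  · simp [geo, bernoulliPowerSeries, mul_two]
  have e : ∀ N, coeff (p + 1) (∑ k ∈ range N, (geo (cc k * I) + geo (-cc k * I) - 2)) =
      ∑ k ∈ range N, ((cc k * I) ^ (p + 1) + (-cc k * I) ^ (p + 1)) := fun N => by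
    simp only [geo, ← map_ofNat (C : ℂ →+* ℂ⟦X⟧) 2, coeff_C, map_sum, map_sub, map_add, coeff_mk,
      p.succ_ne_zero, if_false, sub_zero]
  simp only [e]
  rcases Nat.even_or_odd' (p + 1) with ⟨i, hi | hi⟩
  · have h0 : i ≠ 0 := by omega
    have h1 := (hasSum_nat_add_iff' 1).2 (hasSum_zeta_nat h0)
    have h2 := ((hasSum_ofReal.2 h1).mul_left (2 * (I / (2 * Real.pi)) ^ (2 * i))).tendsto_sum_nat
    have hp : (Real.pi : ℂ) ≠ 0 := by exact_mod_cast Real.pi_ne_zero
    convert h2 using 3 with N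
    · rw [hi, neg_mul, Even.neg_pow (even_two_mul i), ← two_mul, mul_assoc]
      simp only [cc]
      push_cast
      rw [← one_div_pow, ← mul_pow]
      congr 2
      rw [one_div, one_div, mul_inv, div_eq_mul_inv]
      ring
    · obtain ⟨j, rfl⟩ := Nat.exists_eq_succ_of_ne_zero h0
      have : p ≠ 0 := by omega
      simp only [map_sub, coeff_C_mul, coeff_one, coeff_X, bernoulliPowerSeries,
        coeff_mk, hi]
      simp only [show 2 * j.succ = 2 * j + 2 by omega, div_pow, mul_pow, pow_succ, pow_mul]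
      simp
      field_simp
      ring_nf
      simp [pow_mul', mul_assoc, ← mul_pow]
  · have : ∀ k, (cc k * I) ^ (p + 1) + (-cc k * I) ^ (p + 1) = 0 := fun k => by
      rw [neg_mul, Odd.neg_pow ⟨i, hi⟩, add_neg_cancel]
    simp only [this, sum_const_zero]
    convert tendsto_const_nhds
    rcases p with _ | p
    · simp [bernoulliPowerSeries]; norm_num
    · simp [bernoulliPowerSeries, bernoulli_eq_zero_of_odd ⟨i, hi⟩ (by omega), coeff_one]

end

end Pool.Agent.MP_12a176_ag
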