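import Pool.Agent.MP_12a176_ag.ToddDefs
import Pool.Agent.MP_12a176_ag.KCone
import Pool.Agent.MP_12a176_ag.Global

/- The Todd form dominates every Chern form. -/

set_option autoImplicit false

namespace Pool.Agent.MP_12a176_ag

open Finset Complex MeasureTheory PowerSeries Matrix Filter Topology
open scoped ComplexOrder ComplexConjugate

noncomputable section

variable {m n : ℕ} {R S : Type} [CommRing R] [Algebra ℂ R] [CommRing S] [Algebra ℂ S]

/-- The matrix `A / (1 - exp (-A))`. -/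
def tdE (A : Matrix (Fin m) (Fin m) R) : Matrix (Fin m) (Fin m) R⟦X⟧ :=
  Matrix.of fun a b => PowerSeries.mk fun k => ((bernoulli' k / k.factorial : ℚ) : ℂ) • (A ^ k) a b

theorem td_map (φ : R →ₐ[ℂ] S) (A : Matrix (Fin m) (Fin m) R) :
    PowerSeries.map (φ : R →+* S) (tdE A).det = (tdE (A.map φ)).det := by
  rw [RingHom.map_det]
  congr 1
  ext a b k
  have := congrFun (congrFun (map_pow φ.mapMatrix A k) a) b
  simp only [AlgHom.mapMatrix_apply, map_apply] at this
  simp [tdE, ← this]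

theorem ev_todd (Θ : Matrix (Fin m) (Fin m) R) :
    ev Θ (toddPoly m) = coeff m (tdE ((I / (2 * Real.pi)) • Θ)).det := by
  have := congrArg (coeff m) (td_map (ev Θ) ((I / (2 * Real.pi)) • mvPolynomialX (Fin m) (Fin m) ℂ))
  rw [coeff_map] at this
  refine this.trans ?_
  congr 3
  ext a b
  simp

theorem td_conj {g g' : Matrix (Fin m) (Fin m) ℂ} (hg : g * g' = 1) (A : Matrix (Fin m) (Fin m) ℂ) :
    (tdE (g' * A * g)).det = (tdE A).det := by
  have h1 : ∀ k, (g' * A * g) ^ k = g' * A ^ k * g := fun k => by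
    induction k with
    | zero => simp [mul_eq_one_comm.1 hg]
    | succ k ih =>
      rw [pow_succ, ih, pow_succ]
      simp only [Matrix.mul_assoc]
      rw [← Matrix.mul_assoc g, hg, Matrix.one_mul]
  have h2 : tdE (g' * A * g) = g'.map C * tdE A * g.map C := by
    ext a b k
    simp only [tdE, h1, Matrix.mul_apply, of_apply, coeff_mk, map_apply, map_sum, coeff_mul_C,
      coeff_C_mul, smul_eq_mul, sum_mul, mul_sum]
    exact sum_congr rfl fun _ _ => sum_congr rfl fun _ _ => by ring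
  rw [h2, det_mul, det_mul, mul_right_comm, ← det_mul, ← Matrix.map_mul, mul_eq_one_comm.1 hg]
  simp

theorem todd_inv : Inv (toddPoly m) := fun g g' Θ hg => by
  rw [ev_todd, ev_todd, ← Matrix.smul_mul, ← Matrix.mul_smul, td_conj hg]

theorem td_herm {K : Matrix (Fin m) (Fin m) ℂ} (hK : K.IsHermitian) :
    (tdE K).det = ∏ j, rescale (hK.eigenvalues j : ℂ) (bernoulli'PowerSeries ℂ) := by
  rw [← td_conj (Unitary.coe_mul_star_self hK.eigenvectorUnitary), Unitary.coe_star, herm_diag,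
    ← det_diagonal]
  congr 1
  ext a b k
  by_cases h : a = b <;> simp [tdE, diagonal_pow, h, bernoulli'PowerSeries, mul_comm]

section graded

variable {ι : Type}

/-- Graded series. -/
def Gr (y : PS ι) : Prop := ∀ k, (coeff k y).IsHomogeneous k

theorem Gr.mul {y z : PS ι} (hy : Gr y) (hz : Gr z) : Gr (y * z) := fun k => by
  rw [coeff_mul]
  exact MvPolynomial.IsHomogeneous.sum _ _ _ fun p hp => mem_antidiagonal.1 hp ▸ (hy _).mul (hz _)

theorem Gr.int (z : ℤ) : Gr (z : PS ι) := fun k => by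
  rw [← map_intCast (C : _ →+* PS ι), coeff_C, ← map_intCast (MvPolynomial.C : ℂ →+* _)]
  split_ifs with h
  exacts [h ▸ MvPolynomial.isHomogeneous_C _ _, MvPolynomial.isHomogeneous_zero _ _ _]

theorem Gr.prod {α : Type} {s : Finset α} {y : α → PS ι} (h : ∀ a ∈ s, Gr (y a)) :
    Gr (∏ a ∈ s, y a) := prod_induction _ _ (fun _ _ => Gr.mul) (by simpa using Gr.int 1) h

theorem homog_smul {p : MvPolynomial ι ℂ} {k : ℕ} (c : ℂ) (h : p.IsHomogeneous k) :
    (c • p).IsHomogeneous k := (MvPolynomial.homogeneousSubmodule ι ℂ k).smul_mem c h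

theorem Gr.td {A : Matrix (Fin m) (Fin m) (MvPolynomial ι ℂ)} (h : ∀ a b, (A a b).IsHomogeneous 1) :
    Gr (tdE A).det := by
  have h1 : ∀ k a b, ((A ^ k) a b).IsHomogeneous k := fun k => by
    induction k with
    | zero =>
      intro a b
      rw [pow_zero, one_apply]
      split_ifs
      exacts [MvPolynomial.isHomogeneous_one _ _, MvPolynomial.isHomogeneous_zero _ _ _]
    | succ k ih =>
      intro a b
      rw [pow_succ, Matrix.mul_apply]
      exact MvPolynomial.IsHomogeneous.sum _ _ _ fun c _ => (ih a c).mul (h c b)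
  intro k
  rw [det_apply', map_sum]
  exact MvPolynomial.IsHomogeneous.sum _ _ _ fun π _ => (Gr.int _).mul (Gr.prod fun a _ k => by
    simpa [tdE] using homog_smul _ (h1 k _ _)) k

theorem Gr.ex {l : MvPolynomial ι ℂ} (h : l.IsHomogeneous 1) : Gr (Ex l) := fun k => by
  rw [coeff_Ex]
  simpa using homog_smul _ (h.pow k)

theorem Gr.gavg [Fintype ι] {d : ℕ} (G : (Fin d → ℂ) → ι → ℝ) (s : Set (Fin d → ℂ)) :
    Gr (gavg G s) := fun k => by
  rw [Pool.Agent.MP_12a176_ag.gavg, coeff_mk]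
  refine homog_smul _ (MvPolynomial.IsHomogeneous.sum _ _ _ fun j _ => homog_smul _ ?_)
  simpa using MvPolynomial.IsHomogeneous.prod univ (fun i => MvPolynomial.X (R := ℂ) (j i))
    (fun _ => 1) fun i _ => MvPolynomial.isHomogeneous_X _ _

/-- Evaluation at a real point. -/
abbrev evr (γ : ι → ℝ) : MvPolynomial ι ℂ →ₐ[ℂ] ℂ := MvPolynomial.aeval fun a => (γ a : ℂ)

theorem tendsto_fun [Finite ι] {P : ℕ → MvPolynomial ι ℂ} {Q : MvPolynomial ι ℂ}
    (hP : ∀ N, (P N).IsHomogeneous m) (hQ : Q.IsHomogeneous m)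
    (h : ∀ γ, Tendsto (fun N => evr γ (P N)) atTop (𝓝 (evr γ Q)))
    (Λ : MvPolynomial ι ℂ →ₗ[ℂ] ℂ) : Tendsto (fun N => Λ (P N)) atTop (𝓝 (Λ Q)) := by
  let W := MvPolynomial.restrictTotalDegree ι ℂ m
  have := FiniteDimensional.mem_span_of_iInf_ker_le_ker
    (L := fun γ => (evr γ).toLinearMap ∘ₗ W.subtype) (K := Λ ∘ₗ W.subtype) fun p hp => by
      have : p.1 = 0 := MvPolynomial.funext_set (fun _ => Set.range ((↑) : ℝ → ℂ))
        (fun _ => Set.infinite_range_of_injective ofReal_injective) fun x hx => by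
          choose g hg using fun a => hx a trivial
          simpa [hg] using (Submodule.mem_iInf _).1 hp g
      simp [this]
  have hW : ∀ {p : MvPolynomial ι ℂ}, p.IsHomogeneous m → p ∈ W := fun h =>
    (MvPolynomial.mem_restrictTotalDegree _ _ _).2 h.totalDegree_le
  refine Submodule.span_induction (p := fun L _ =>
    Tendsto (fun N => L ⟨_, hW (hP N)⟩) atTop (𝓝 (L ⟨_, hW hQ⟩))) ?_ tendsto_const_nhds
    (fun _ _ _ _ h h' => h.add h') (fun c _ _ h => h.const_smul c) this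
  rintro _ ⟨γ, rfl⟩
  exact h γ

end graded

theorem todd_homog : (toddPoly m).IsHomogeneous m :=
  Gr.td (fun _ _ => homog_smul _ (MvPolynomial.isHomogeneous_X _ _)) m

/-- The universal Hermitian matrix. -/
def Mm (m : ℕ) : Matrix (Fin m) (Fin m) (MvPolynomial (Fin m × Fin m) ℂ) :=
  (I / (2 * Real.pi)) • uni m

theorem Mm_homog (a b : Fin m) : (Mm m a b).IsHomogeneous 1 :=
  homog_smul _ ((homog_smul _ (MvPolynomial.isHomogeneous_X _ _)).add
    (homog_smul _ (MvPolynomial.isHomogeneous_X _ _)))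

theorem Mm_apply (γ : Fin m × Fin m → ℝ) (a b : Fin m) : (Mm m).map (evr γ) a b =
    ((I - 1) * γ (a, b) + (-I - 1) * γ (b, a)) / (4 * Real.pi) := by
  have : (Real.pi : ℂ) ≠ 0 := by exact_mod_cast Real.pi_ne_zero
  simp only [Mm, uni, map_apply, Matrix.smul_apply, of_apply, map_smul, map_add,
    MvPolynomial.aeval_X, smul_eq_mul]
  field_simp
  linear_combination (4 * γ (a, b) + 4 * γ (b, a) : ℂ) * I_sq

theorem Mm_herm (γ : Fin m × Fin m → ℝ) : ((Mm m).map (evr γ)).IsHermitian := by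
  ext a b
  rw [conjTranspose_apply, Mm_apply, Mm_apply]
  simp [add_comm]

/-- The coordinates of `c a a*`. -/
def Gq (c : ℝ) (a : Fin m → ℂ) (p : Fin m × Fin m) : ℝ :=
  c * ((I - 1) * (conj (a p.1) * a p.2)).re / (2 * Real.pi)

theorem Gq_cont (c : ℝ) : Continuous (Gq (m := m) c) := by unfold Gq; fun_prop

theorem Gq_le (c : ℝ) (a : Fin m → ℂ) (p : Fin m × Fin m) : |Gq c a p| ≤ |c| * sq2 a := by
  have h : ∀ j, ‖a j‖ ^ 2 ≤ sq2 a := fun j =>
    single_le_sum (f := fun j => ‖a j‖ ^ 2) (fun _ _ => sq_nonneg _) (mem_univ j)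
  have h1 := abs_re_le_norm ((I - 1) * (conj (a p.1) * a p.2))
  have h2 : ‖I - 1‖ ≤ 2 := (norm_sub_le _ _).trans (by norm_num)
  rw [norm_mul, norm_mul, norm_conj] at h1
  rw [Gq, mul_div_assoc, abs_mul, abs_div, abs_of_pos Real.two_pi_pos]
  refine mul_le_mul_of_nonneg_left ((div_le_iff₀ Real.two_pi_pos).2 (h1.trans ?_)) (abs_nonneg _)
  have h3 : ‖a p.1‖ * ‖a p.2‖ ≤ sq2 a := by
    nlinarith [h p.1, h p.2, sq_nonneg (‖a p.1‖ - ‖a p.2‖)]
  rw [mul_comm (sq2 a)]
  exact mul_le_mul (by linarith [Real.pi_gt_three]) h3 (by positivity) Real.two_pi_pos.le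

theorem evr_Gq (γ : Fin m × Fin m → ℝ) (c : ℝ) (a : Fin m → ℂ) :
    evr γ (lin (Gq c a)) = c * (star a ⬝ᵥ (Mm m).map (evr γ) *ᵥ a) := by
  have : (Real.pi : ℂ) ≠ 0 := by exact_mod_cast Real.pi_ne_zero
  simp only [lin, map_sum, map_smul, MvPolynomial.aeval_X, dotProduct, mulVec, Mm_apply, add_div,
    add_mul, mul_add, mul_sum, sum_add_distrib, Fintype.sum_prod_type]
  rw [sum_comm (f := fun a' b' => (c : ℂ) * (star a a' * ((-I - 1) * _ / _ * _))),
    ← sum_add_distrib]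
  refine sum_congr rfl fun b _ => ?_
  rw [← sum_add_distrib]
  refine sum_congr rfl fun d _ => ?_
  simp only [Gq, ofReal_div, ofReal_mul, re_eq_add_conj, map_mul, map_sub, conj_I, map_one,
    conj_conj, Pi.star_apply, star_def, smul_eq_mul, ofReal_ofNat]
  field_simp
  ring

theorem evr_gavg (γ : Fin m × Fin m → ℝ) (c : ℝ) :
    PowerSeries.map (evr γ : MvPolynomial (Fin m × Fin m) ℂ →+* ℂ) (gavg (Gq c) Set.univ) =
      ∏ j, geo (c * (Mm_herm γ).eigenvalues j) := by
  ext k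
  have := (gavg_coeff (Gq_cont c) (Gq_le c) (evr γ).toLinearMap k).2 Set.univ
  simp only [AlgHom.toLinearMap_apply, map_pow, evr_Gq, Measure.restrict_univ,
    gauss_herm (Mm_herm γ)] at this
  rw [coeff_map, RingHom.coe_coe, this, inv_mul_cancel_left₀ (by exact_mod_cast k.factorial_ne_zero)]

/-- The factors. -/
def Fk (m k : ℕ) : PS (Fin m × Fin m) := gavg (Gq (cc k)) Set.univ * gavg (Gq (-cc k)) Set.univ

theorem Fk_Kc (k : ℕ) : Kc m (Fk m k) :=
  (gavg_Kc (Gq_cont _) (Gq_le _) _).mul (gavg_Kc (Gq_cont _) (Gq_le _) _)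

theorem Fk_const (k : ℕ) : constantCoeff (Fk m k) = 1 := by
  have h : ∫ a : Fin m → ℂ, (gw a : ℂ) = 1 := by
    rw [integral_complex_ofReal]
    simpa using (gauss_mono (m := m) 0).2
  simp [Fk, gavg, h]

theorem Ex_mem (g : Fin m × Fin m → ℝ) : Ex (lin g) ∈ Wc m (∏ k : Fin m, Fk m k) := by
  let N : Matrix (Fin m) (Fin m) ℂ := Matrix.of fun d b =>
    -Real.pi * (g (b, d) + g (d, b)) + I * Real.pi * (g (d, b) - g (b, d))
  have hN : N.IsHermitian := by
    ext a b
    simp [N]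
    ring
  let U : Matrix (Fin m) (Fin m) ℂ := hN.eigenvectorUnitary
  let l := hN.eigenvalues
  have h1 : N = U * diagonal (fun j => (l j : ℂ)) * star U := by
    simpa [Function.comp_def] using hN.spectral_theorem
  have h2 : ∀ (c s : ℝ) (u : Fin m → ℂ), Gq c (fun b => s * u b) = (c * s ^ 2) • Gq 1 u := by
    intro c s u
    ext p
    rw [Gq, show (I - 1) * (conj (s * u p.1) * (s * u p.2)) =
      (s ^ 2 : ℝ) * ((I - 1) * (conj (u p.1) * u p.2)) by simp; ring, re_ofReal_mul]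
    simp [Gq]
    ring
  have h3 : g = ∑ j : Fin m, (Gq (cc j) (fun b => √(max (l j) 0 / cc j) * U b j) +
      Gq (-cc j) fun b => √(max (-l j) 0 / cc j) * U b j) := by
    have e : ∀ j : Fin m, cc j * √(max (l j) 0 / cc j) ^ 2 + -cc j * √(max (-l j) 0 / cc j) ^ 2 =
        l j := fun j => by
      have := cc_pos j
      rw [Real.sq_sqrt (by positivity), Real.sq_sqrt (by positivity), neg_mul, mul_div_cancel₀ _ this.ne',
        mul_div_cancel₀ _ this.ne', ← sub_eq_add_neg, max_zero_sub_max_neg_zero_eq_self]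
    simp only [h2, ← add_smul, e]
    ext p
    have h4 := congrArg (fun A => ((I - 1) * A p.2 p.1).re / (2 * Real.pi)) h1
    simp only [Matrix.mul_apply (N := star U), mul_diagonal, star_apply, mul_sum, re_sum,
      sum_div] at h4
    rw [Finset.sum_apply, show g p = ((I - 1) * N p.2 p.1).re / (2 * Real.pi) by
      simp [N]; field_simp; ring, h4]
    refine sum_congr rfl fun j _ => ?_
    rw [show (I - 1) * (U p.2 j * l j * star (U p.1 j)) =
      l j * ((I - 1) * (conj (U p.1 j) * U p.2 j)) by rw [star_def]; ring, re_ofReal_mul]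
    simp [Gq, mul_div_assoc]
  have h4 : ∀ (s : Finset (Fin m)) (G : Fin m → Fin m × Fin m → ℝ),
      Ex (lin (∑ j ∈ s, G j)) = ∏ j ∈ s, Ex (lin (G j)) := fun s G => by
    induction s using Finset.cons_induction with
    | empty => simp [lin, Ex]
    | cons a s ha ih => rw [sum_cons, prod_cons, ← Ex_mul, ih]
  rw [h3, h4]
  refine Wc_prod (fun k _ => Fk_Kc k) fun k _ => ?_
  rw [← Ex_mul]
  exact Wc_mul (gavg_Kc (Gq_cont _) (Gq_le _) _) (Ex_mem_Wc (Gq_cont _) (Gq_le _) _)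
    (Ex_mem_Wc (Gq_cont _) (Gq_le _) _)

/-- The series of the genus without the first Chern class. -/
def Ah (m : ℕ) : PS (Fin m × Fin m) := (tdE (Mm m)).det * Ex ((-1 / 2 : ℂ) • (Mm m).trace)

theorem Ah_gr : Gr (Ah m) := (Gr.td Mm_homog).mul (Gr.ex (homog_smul _
  (MvPolynomial.IsHomogeneous.sum _ _ _ fun a _ => Mm_homog a a)))

theorem map_Ex {ι : Type} (φ : MvPolynomial ι ℂ →ₐ[ℂ] R) (l : MvPolynomial ι ℂ) :
    PowerSeries.map (φ : _ →+* R) (Ex l) = PowerSeries.mk fun k => (k.factorial : ℂ)⁻¹ • φ l ^ k := by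
  ext k
  simp [coeff_Ex]

open PowerSeries.WithPiTopology in
theorem evr_tendsto (γ : Fin m × Fin m → ℝ) (p : ℕ) :
    Tendsto (fun N => evr γ (I ^ p • coeff p (∏ k ∈ range N, Fk m k))) atTop
      (𝓝 (evr γ (coeff p (Ah m)))) := by
  set x := (Mm_herm γ).eigenvalues
  have h1 : ∀ N, evr γ (I ^ p • coeff p (∏ k ∈ range N, Fk m k)) =
      coeff p (∏ j, rescale (x j : ℂ) (aN N)) := fun N => by
    have : ∀ c y : ℂ, rescale I (geo (c * y)) = rescale y (geo (c * I)) := fun c y => by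
      ext k; simp [geo]; ring
    rw [map_smul, smul_eq_mul, ← RingHom.coe_coe, ← coeff_map, ← coeff_rescale]
    simp only [Fk, aN, map_prod, map_mul, evr_gavg, this, ← prod_mul_distrib, ofReal_neg]
    rw [Finset.prod_comm]
  have h2 : evr γ (coeff p (Ah m)) = coeff p (∏ j, rescale (x j : ℂ) ahat) := by
    have : ∀ s : Finset (Fin m), ∏ j ∈ s, rescale (-1 / 2 * x j : ℂ) (PowerSeries.exp ℂ) =
        rescale (-1 / 2 * ∑ j ∈ s, (x j : ℂ)) (PowerSeries.exp ℂ) := fun s => by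
      induction s using Finset.cons_induction with
      | empty => simp
      | cons a s ha ih => rw [sum_cons, prod_cons, ih, exp_mul_exp_eq_exp_add, mul_add]
    rw [← RingHom.coe_coe, ← coeff_map, Ah, map_mul, td_map, td_herm (Mm_herm γ), map_Ex, map_smul,
      AddMonoidHom.map_trace, (Mm_herm γ).trace_eq_sum_eigenvalues]
    simp only [ahat, map_mul, prod_mul_distrib, rescale_rescale, this]
    congr 2
    ext k
    simp [x, mul_comm]
  simp only [h1, h2]
  refine (continuous_coeff ℂ p).continuousAt.tendsto.comp (tendsto_finsetProd _ fun j _ => ?_)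
  simp only [tendsto_iff_coeff_tendsto, coeff_rescale]
  exact fun q => (aN_tendsto q).const_mul _

theorem todd_Ah (φ : MvPolynomial (Fin m × Fin m) ℂ →ₐ[ℂ] R) (h : ((uni m).map φ).trace = 0) :
    φ (ev (uni m) (toddPoly m)) = φ (coeff m (Ah m)) := by
  have : PowerSeries.map (φ : _ →+* R) (Ex ((-1 / 2 : ℂ) • (Mm m).trace)) = 1 := by
    rw [map_Ex, Mm, trace_smul, map_smul, map_smul, AddMonoidHom.map_trace, h]
    ext k
    cases k <;> simp [coeff_one]
  have e : PowerSeries.map (φ : _ →+* R) (Ah m) = PowerSeries.map (φ : _ →+* R) (tdE (Mm m)).det := by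
    rw [Ah, map_mul, this, mul_one]
  rw [ev_todd]
  simpa only [coeff_map, RingHom.coe_coe, Mm] using (congrArg (coeff m) e).symm

theorem Ah_bound {P : MvPolynomial (Fin m × Fin m) ℂ} (h : P.IsHomogeneous m) :
    ∃ C : ℝ, 0 ≤ C ∧ ∀ Λ : MvPolynomial (Fin m × Fin m) ℂ →ₗ[ℂ] ℂ, (∀ g, 0 ≤ Λ (lin g ^ m)) →
      ∀ c : ℂ, c * I ^ m = 1 → ‖Λ P‖ ≤ C * (c * Λ (coeff m (Ah m))).re := by
  obtain ⟨C, h0, hC⟩ := Wc_final (F := ∏ k : Fin m, Fk m k) (Kc.prod fun k _ => Fk_Kc k)
    (monomial_mem_Wc Ex_mem h)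
  refine ⟨C, h0, fun Λ a1 c hc => ?_⟩
  have h1 : ∀ N, Gr (∏ k ∈ range N, Fk m k) := fun N =>
    Gr.prod fun k _ => (Gr.gavg _ _).mul (Gr.gavg _ _)
  have h2 := tendsto_fun (fun N => homog_smul (I ^ m) (h1 N m)) (Ah_gr m)
    (fun γ => evr_tendsto γ m) Λ
  refine ge_of_tendsto ((continuous_re.continuousAt.tendsto.comp (h2.const_mul c)).const_mul C)
    (eventually_atTop.2 ⟨m, fun N hN => ?_⟩)
  have := hC Λ a1 (∏ k ∈ Ico m N, Fk m k) (Kc.prod fun k _ => Fk_Kc k)
    (by simp [map_prod, Fk_const])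
  rw [Fin.prod_univ_eq_prod_range, prod_range_mul_prod_Ico _ hN] at this
  simpa [← mul_assoc, hc] using this

theorem todd_dom {P : MvPolynomial (Fin (2 * n) × Fin (2 * n)) ℂ} (h1 : Inv P)
    (h2 : P.IsHomogeneous (2 * n)) : ∃ C : ℝ, 0 ≤ C ∧ Dom P (toddPoly (2 * n)) C := by
  obtain ⟨C, h0, hC⟩ := Ah_bound (uni_homog h2)
  refine ⟨C, h0, fun {R} _ _ {x} hx H S Θ h => ?_⟩
  obtain ⟨φ, Λ, a1, a2, a3, a4⟩ := h.exists_fun hx
  rw [eps_eq hx ((a3 P h1).trans (a4 _ (uni_homog h2))),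
    eps_eq hx ((a3 _ todd_inv).trans ((todd_Ah φ a2).trans (a4 _ (Ah_gr _))))]
  simpa using hC Λ a1 ((-1) ^ n) (by simp [pow_mul, ← mul_pow])

end

end Pool.Agent.MP_12a176_ag
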