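import Pool.Agent.MP_12a176_ag.Defs

/- The Todd polynomial. -/

set_option autoImplicit false

namespace Pool.Agent.MP_12a176_ag

open Complex

/-- The part of degree `m` of `det (A / (1 - exp (-A)))`, `A = (i / 2π) Θ`, where
`x / (1 - exp (-x))` is the series with coefficients `bernoulli' k / k!`. -/
noncomputable def toddPoly (m : ℕ) : MvPolynomial (Fin m × Fin m) ℂ :=
  PowerSeries.coeff m (Matrix.det (Matrix.of fun a b => PowerSeries.mk fun k =>
    ((bernoulli' k / k.factorial : ℚ) : ℂ) •
      (((I / (2 * Real.pi)) • Matrix.mvPolynomialX (Fin m) (Fin m) ℂ) ^ k) a b))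

end Pool.Agent.MP_12a176_ag
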